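import Pool.Agent.Y317.SQ.CTools

/-!
# Superelliptic curves: the pairing with the ramified points
-/

set_option autoImplicit false

open Polynomial IsDedekindDomain
open scoped nonZeroDivisors

namespace Pool.Agent.Y317.SQ.C

open Pool.Agent.Y160.SQ

theorem Eqv.ne_bot {R : Type*} [CommRing R] [IsDomain R] {I J : Ideal R} (h : Eqv I J)
    (hI : I ≠ ⊥) : J ≠ ⊥ := by
  rintro rfl
  obtain ⟨a, b, ha, hb, h⟩ := h
  rw [Ideal.mul_bot, Ideal.mul_eq_bot, Ideal.span_singleton_eq_bot] at h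
  exact h.elim ha hI

section

variable {ℓ : ℕ} {E : Type} [Field E] {ζ : E} {f : E[X]}

theorem tw_ne_bot (hg : Good ℓ ζ f) {J : Ideal (CR ℓ f)} (hJ : J ≠ ⊥) : J.map hg.tw ≠ ⊥ := by
  rwa [Ne, Ideal.map_eq_bot_iff_of_injective (tw_inj hg)]

theorem span_mul (a b : CR ℓ f) : Ideal.span {a * b} = Ideal.span {a} * Ideal.span {b} :=
  (Ideal.span_singleton_mul_span_singleton a b).symm

theorem tw_map (hg : Good ℓ ζ f) {a b : CR ℓ f} {J K : Ideal (CR ℓ f)}
    (h : Ideal.span {a} * J = Ideal.span {b} * K) :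
    Ideal.span {hg.tw a} * J.map hg.tw = Ideal.span {hg.tw b} * K.map hg.tw := by
  have := congrArg (Ideal.map hg.tw) h
  rw [Ideal.map_mul, Ideal.map_mul, Ideal.map_span, Ideal.map_span, Set.image_singleton,
    Set.image_singleton] at this
  exact this

theorem chi_ex [IsDedekindDomain (CR ℓ f)] (hg : Good ℓ ζ f) (hs : f.Splits)
    (I : Ideal (CR ℓ f)) (hI : I ≠ ⊥) (h : Eqv I (I.map hg.tw)) (β : E) (hβ : f.eval β = 0) :
    ∃ z, Chi hg β z I := by
  obtain ⟨J, h1, h2, -⟩ := move (yy ℓ f) (yy_ne hg) I hI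
  have h3 : Eqv J (J.map hg.tw) :=
    Eqv.trans (Eqv.trans (Eqv.symm h1) h) (Eqv.map hg.tw (tw_inj hg) h1)
  obtain ⟨a, b, ha, hb, hab⟩ := change hg hs (show PY ℓ f J from h2) (PY.tw hg h2) h3
  refine ⟨rat ℓ f β a / rat ℓ f β b, J, a, b, h1, h2, ha, hb, hab, ?_⟩
  rw [div_mul_cancel₀ _ (rat_ne hg hβ hb)]

theorem chi_unique [IsDedekindDomain (CR ℓ f)] (hN : StNorm) (hg : Good ℓ ζ f) (hs : f.Splits)
    (I : Ideal (CR ℓ f)) (β z z' : E) (hI : I ≠ ⊥) (hβ : f.eval β = 0) (h : Chi hg β z I)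
    (h' : Chi hg β z' I) : z = z' := by
  obtain ⟨J, a, b, h1, h2, ha, hb, hab, hz⟩ := h
  obtain ⟨J', a', b', h1', h2', ha', hb', hab', hz'⟩ := h'
  have hJ : J ≠ ⊥ := Eqv.ne_bot h1 hI
  have htJ := tw_ne_bot hg hJ
  obtain ⟨s, t, hsC, htC, hst⟩ := change hg hs (show PY ℓ f J' from h2') (show PY ℓ f J from h2)
    (Eqv.trans (Eqv.symm h1') h1)
  have hst' := tw_map hg hst
  have key : Ideal.span {a' * t * hg.tw s * b} = Ideal.span {a * s * b' * hg.tw t} := by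
    apply mul_right_cancel₀ htJ
    simp only [span_mul]
    calc Ideal.span {a'} * Ideal.span {t} * Ideal.span {hg.tw s} * Ideal.span {b} * J.map hg.tw
        = Ideal.span {a'} * Ideal.span {t} * Ideal.span {hg.tw s} *
          (Ideal.span {b} * J.map hg.tw) := by ring
      _ = Ideal.span {a'} * Ideal.span {hg.tw s} * Ideal.span {a} * (Ideal.span {t} * J) := by
          rw [← hab]; ring
      _ = Ideal.span {s} * Ideal.span {hg.tw s} * Ideal.span {a} * (Ideal.span {a'} * J') := by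
          rw [← hst]; ring
      _ = Ideal.span {s} * Ideal.span {b'} * Ideal.span {a} *
          (Ideal.span {hg.tw s} * J'.map hg.tw) := by
          rw [hab']; ring
      _ = _ := by rw [hst']; ring
  obtain ⟨c, -, -, hr⟩ := rat_span hN hg hβ key
  simp only [rat_mul hg hβ, rat_tw hg] at hr
  have n1 := rat_ne hg hβ hsC
  have n2 := rat_ne hg hβ htC
  have n3 := rat_ne hg hβ hb
  have n4 := rat_ne hg hβ hb'
  have e1 : rat ℓ f β a' * rat ℓ f β b = rat ℓ f β a * rat ℓ f β b' := by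
    have : (rat ℓ f β s * rat ℓ f β t) * (rat ℓ f β a' * rat ℓ f β b) =
        (rat ℓ f β s * rat ℓ f β t) * (rat ℓ f β a * rat ℓ f β b') := by linear_combination hr
    exact mul_left_cancel₀ (mul_ne_zero n1 n2) this
  have e2 : (rat ℓ f β b * rat ℓ f β b') * z = (rat ℓ f β b * rat ℓ f β b') * z' := by
    linear_combination rat ℓ f β b' * hz - rat ℓ f β b * hz' - e1
  exact mul_left_cancel₀ (mul_ne_zero n3 n4) e2

theorem ev_pow_tw (hg : Good ℓ ζ f) (β : E) (a : CR ℓ f) (i : ℕ) :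
    ev ℓ f β ((hg.tw ^ i) a) = ev ℓ f β a := by
  induction i with
  | zero => rfl
  | succ i ih =>
    have : (hg.tw ^ (i + 1)) a = hg.tw ((hg.tw ^ i) a) := by
      rw [pow_succ']; rfl
    rw [this, ev_tw hg, ih]

theorem ev_prod (hg : Good ℓ ζ f) {β : E} (hβ : f.eval β = 0) {ι : Type*} (s : Finset ι)
    (a : ι → CR ℓ f) : ev ℓ f β (∏ i ∈ s, a i) = ∏ i ∈ s, ev ℓ f β (a i) := by
  rw [ev_eq hg.ne hβ, map_prod]

theorem ev_norm (hg : Good ℓ ζ f) {β : E} (hβ : f.eval β = 0) (a : CR ℓ f) :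
    ev ℓ f β (∏ i ∈ Finset.range ℓ, (hg.tw ^ i) a) = ev ℓ f β a ^ ℓ := by
  rw [ev_prod hg hβ]
  simp only [ev_pow_tw hg]
  rw [Finset.prod_const, Finset.card_range]

/-- The product of all the twists of a relation. -/
theorem prod_tw (hg : Good ℓ ζ f) {a b : CR ℓ f} {I J : Ideal (CR ℓ f)} 
    (h : Ideal.span {a} * (I * J.map hg.tw) = Ideal.span {b} * J) :
    Ideal.span {∏ i ∈ Finset.range ℓ, (hg.tw ^ i) a} *
      ((∏ i ∈ Finset.range ℓ, I.map (hg.tw ^ i)) * ∏ i ∈ Finset.range ℓ, J.map (hg.tw ^ i)) =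
    Ideal.span {∏ i ∈ Finset.range ℓ, (hg.tw ^ i) b} * ∏ i ∈ Finset.range ℓ, J.map (hg.tw ^ i) := by
  have h1 : ∀ i : ℕ, Ideal.span {(hg.tw ^ i) a} * (I.map (hg.tw ^ i) * J.map (hg.tw ^ (i + 1))) =
      Ideal.span {(hg.tw ^ i) b} * J.map (hg.tw ^ i) := by
    intro i
    have := congrArg (Ideal.map (hg.tw ^ i)) h
    rw [Ideal.map_mul, Ideal.map_mul, Ideal.map_mul, Ideal.map_span, Ideal.map_span,
      Set.image_singleton, Set.image_singleton, Ideal.map_map] at this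
    have e : (hg.tw ^ i).comp hg.tw = hg.tw ^ (i + 1) := by rw [pow_succ]; rfl
    rw [e] at this
    exact this
  have h2 : ∏ i ∈ Finset.range ℓ, J.map (hg.tw ^ (i + 1)) =
      ∏ i ∈ Finset.range ℓ, J.map (hg.tw ^ i) := by
    obtain ⟨k, hk⟩ : ∃ k, ℓ = k + 1 := ⟨ℓ - 1, by have := hg.one_lt; omega⟩
    have e3 : J.map (hg.tw ^ (k + 1)) = J.map (hg.tw ^ 0) := by
      rw [← hk, tw_pow_ℓ, pow_zero]
    have e4 : ∏ i ∈ Finset.range (k + 1), J.map (hg.tw ^ (i + 1)) =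
        ∏ i ∈ Finset.range (k + 1), J.map (hg.tw ^ i) := by
      rw [Finset.prod_range_succ, Finset.prod_range_succ' (fun i => J.map (hg.tw ^ i)), e3]
    rw [← hk] at e4
    exact e4
  have h3 : ∀ c : CR ℓ f, Ideal.span {∏ i ∈ Finset.range ℓ, (hg.tw ^ i) c} =
      ∏ i ∈ Finset.range ℓ, Ideal.span {(hg.tw ^ i) c} := fun c =>
    (Ideal.prod_span_singleton _ _).symm
  rw [h3, h3]
  calc _ = (∏ i ∈ Finset.range ℓ, Ideal.span {(hg.tw ^ i) a}) *
        ((∏ i ∈ Finset.range ℓ, I.map (hg.tw ^ i)) * ∏ i ∈ Finset.range ℓ, J.map (hg.tw ^ (i + 1))) := by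
        rw [h2]
    _ = ∏ i ∈ Finset.range ℓ, (Ideal.span {(hg.tw ^ i) a} *
        (I.map (hg.tw ^ i) * J.map (hg.tw ^ (i + 1)))) := by
        rw [Finset.prod_mul_distrib, Finset.prod_mul_distrib]
    _ = ∏ i ∈ Finset.range ℓ, (Ideal.span {(hg.tw ^ i) b} * J.map (hg.tw ^ i)) :=
        Finset.prod_congr rfl fun i _ => h1 i
    _ = _ := Finset.prod_mul_distrib

theorem tw_pow_inj (hg : Good ℓ ζ f) (i : ℕ) : Function.Injective (hg.tw ^ i) := by
  induction i with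
  | zero => exact fun x y hxy => hxy
  | succ i ih =>
    intro x y hxy
    rw [pow_succ'] at hxy
    exact ih (tw_inj hg hxy)

open scoped Classical in
theorem rat_pow (β : E) (a : CR ℓ f) : rat ℓ f β a ^ ℓ =
    ∏ β' ∈ f.roots.toFinset, (ev ℓ f β a ^ ℓ / ev ℓ f β' a ^ ℓ) := by
  unfold rat
  rw [← Finset.prod_pow]
  exact Finset.prod_congr rfl fun β' _ => div_pow _ _ _

theorem chi_pow [IsDedekindDomain (CR ℓ f)] (hN : StNorm) (hg : Good ℓ ζ f)
    (I : Ideal (CR ℓ f)) (β z : E) (hI : I ≠ ⊥) (hβ : f.eval β = 0) (h : Chi hg β z I) :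
    z ^ ℓ = 1 := by
  obtain ⟨J, a, b, h1, h2, ha, hb, hab, hz⟩ := h
  have hJ : J ≠ ⊥ := Eqv.ne_bot h1 hI
  have h3 := prod_tw (I := ⊤) (a := b) (b := a) (J := J) hg (by rw [Ideal.top_mul]; exact hab.symm)
  have hP : ∏ i ∈ Finset.range ℓ, J.map (hg.tw ^ i) ≠ ⊥ := by
    rw [← Ideal.zero_eq_bot]
    refine Finset.prod_ne_zero_iff.2 fun i _ => ?_
    rw [Ideal.zero_eq_bot, Ne, Ideal.map_eq_bot_iff_of_injective (tw_pow_inj hg i)]
    exact hJ
  have h4 : ∏ i ∈ Finset.range ℓ, (⊤ : Ideal (CR ℓ f)).map (hg.tw ^ i) = ⊤ := by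
    rw [← Ideal.one_eq_top]
    refine Finset.prod_eq_one fun i _ => ?_
    rw [Ideal.one_eq_top, Ideal.map_top]
  rw [h4, Ideal.top_mul] at h3
  have h5 := mul_right_cancel₀ hP h3
  obtain ⟨c, hc, hc2, -⟩ := rat_span hN hg hβ h5
  have h6 : ∀ β', f.eval β' = 0 → ev ℓ f β' b ^ ℓ = c * ev ℓ f β' a ^ ℓ := by
    intro β' hβ'
    have := congrArg (ev ℓ f β') hc2
    rw [ev_norm hg hβ', ev_mul hg hβ', ev_const hg hβ', ev_norm hg hβ'] at this
    exact this
  have h7 : rat ℓ f β b ^ ℓ = rat ℓ f β a ^ ℓ := by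
    rw [rat_pow, rat_pow]
    refine Finset.prod_congr rfl fun β' hβ' => ?_
    rw [h6 β hβ, h6 β' ((mem_roots' hg).1 hβ'), mul_div_mul_left _ _ hc]
  have h8 : (z * rat ℓ f β b) ^ ℓ = rat ℓ f β a ^ ℓ := by rw [hz]
  rw [mul_pow, h7] at h8
  have h9 : rat ℓ f β a ^ ℓ ≠ 0 := pow_ne_zero _ (rat_ne hg hβ ha)
  have : z ^ ℓ * rat ℓ f β a ^ ℓ = 1 * rat ℓ f β a ^ ℓ := by rw [one_mul]; exact h8
  exact mul_right_cancel₀ h9 this

theorem chi_mul [IsDomain (CR ℓ f)] (hg : Good ℓ ζ f) (I I' : Ideal (CR ℓ f)) (β z z' : E)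
    (hβ : f.eval β = 0) (h : Chi hg β z I) (h' : Chi hg β z' I') :
    Chi hg β (z * z') (I * I') := by
  obtain ⟨J, a, b, h1, h2, ha, hb, hab, hz⟩ := h
  obtain ⟨J', a', b', h1', h2', ha', hb', hab', hz'⟩ := h'
  refine ⟨J * J', a * a', b * b', Eqv.mul h1 h1', PY.mul h2 h2', cop_mul hg ha ha',
    cop_mul hg hb hb', ?_, ?_⟩
  · rw [span_mul, span_mul, Ideal.map_mul]
    calc Ideal.span {a} * Ideal.span {a'} * (J * J') =
        (Ideal.span {a} * J) * (Ideal.span {a'} * J') := by ring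
      _ = (Ideal.span {b} * J.map hg.tw) * (Ideal.span {b'} * J'.map hg.tw) := by rw [hab, hab']
      _ = _ := by ring
  · rw [rat_mul hg hβ, rat_mul hg hβ, ← hz, ← hz']
    ring

theorem chi_prod [IsDedekindDomain (CR ℓ f)] (hN : StNorm) (hg : Good ℓ ζ f) (hs : f.Splits)
    (I : Ideal (CR ℓ f)) (z : E → E) (hI : I ≠ ⊥) (h : ∀ β, f.eval β = 0 → Chi hg β (z β) I) :
    (f.roots.map z).prod = 1 := by
  classical
  have hnd := nodup_roots hg.sep
  have e0 : (f.roots.map z).prod = ∏ β ∈ f.roots.toFinset, z β := by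
    rw [Finset.prod, Multiset.toFinset_val, Multiset.dedup_eq_self.2 hnd]
  rw [e0]
  by_cases hne : f.roots.toFinset.Nonempty
  · obtain ⟨β0, hβ0⟩ := hne
    have hβ0' := (mem_roots' hg).1 hβ0
    obtain ⟨J, a, b, h1, h2, ha, hb, hab, -⟩ := h β0 hβ0'
    have h3 : ∀ β, f.eval β = 0 → z β = rat ℓ f β a / rat ℓ f β b := by
      intro β hβ
      refine chi_unique hN hg hs I β _ _ hI hβ (h β hβ) ⟨J, a, b, h1, h2, ha, hb, hab, ?_⟩
      rw [div_mul_cancel₀ _ (rat_ne hg hβ hb)]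
    have h4 : ∀ c : CR ℓ f, Cop ℓ f c → ∏ β ∈ f.roots.toFinset, rat ℓ f β c = 1 := by
      intro c hc
      have e1 : ∏ β ∈ f.roots.toFinset, rat ℓ f β c =
          (∏ β ∈ f.roots.toFinset, ∏ _β' ∈ f.roots.toFinset, ev ℓ f β c) /
            ∏ β ∈ f.roots.toFinset, ∏ β' ∈ f.roots.toFinset, ev ℓ f β' c := by
        rw [← Finset.prod_div_distrib]
        refine Finset.prod_congr rfl fun β _ => ?_
        rw [← Finset.prod_div_distrib]
        rfl
      rw [e1, Finset.prod_comm, div_self]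
      refine Finset.prod_ne_zero_iff.2 fun β _ => Finset.prod_ne_zero_iff.2 fun β' hβ' => ?_
      exact hc β' ((mem_roots' hg).1 hβ')
    rw [Finset.prod_congr rfl (fun β hβ => h3 β ((mem_roots' hg).1 hβ)), Finset.prod_div_distrib,
      h4 a ha, h4 b hb, div_one]
  · rw [Finset.not_nonempty_iff_eq_empty.1 hne, Finset.prod_empty]

end

section functoriality

variable {ℓ : ℕ} {E E' : Type} [Field E] [Field E'] {ζ : E} {f : E[X]} {f' : E'[X]}

theorem eval_map' (φ : E →+* E') (hf : f.map φ = f') {β : E} (hβ : f.eval β = 0) :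
    f'.eval (φ β) = 0 := by
  rw [← hf, eval_map, eval₂_hom, hβ, map_zero]

theorem ev_crMap (hg : Good ℓ ζ f) (φ : E →+* E') (hf : f.map φ = f') {β : E} (hβ : f.eval β = 0)
    (a : CR ℓ f) : ev ℓ f' (φ β) (crMap ℓ φ f f' hf a) = φ (ev ℓ f β a) := by
  rw [ev_eq hg.ne hβ, ev_eq hg.ne (eval_map' φ hf hβ)]
  exact evR_crMap _ φ hf hβ _ a

open scoped Classical in
theorem roots_crMap (φ : E →+* E') (hf : f.map φ = f') (hs : f.Splits) :
    f'.roots.toFinset = f.roots.toFinset.image φ := by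
  rw [← hf, hs.roots_map, Multiset.toFinset_map]

theorem root_crMap (hg : Good ℓ ζ f) (φ : E →+* E') (hf : f.map φ = f') (hs : f.Splits) {β' : E'}
    (hβ' : f'.eval β' = 0) : ∃ β, f.eval β = 0 ∧ φ β = β' := by
  classical
  have h1 : β' ∈ f'.roots.toFinset := (mem_roots' (hg.map φ hf)).2 hβ'
  rw [roots_crMap φ hf hs, Finset.mem_image] at h1
  obtain ⟨β, h2, h3⟩ := h1
  exact ⟨β, (mem_roots' hg).1 h2, h3⟩

theorem rat_crMap (hg : Good ℓ ζ f) (φ : E →+* E') (hf : f.map φ = f') (hs : f.Splits) {β : E}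
    (hβ : f.eval β = 0) (a : CR ℓ f) :
    rat ℓ f' (φ β) (crMap ℓ φ f f' hf a) = φ (rat ℓ f β a) := by
  classical
  unfold rat
  rw [map_prod, roots_crMap φ hf hs, Finset.prod_image (fun x _ y _ h => φ.injective h)]
  refine Finset.prod_congr rfl fun β' hβ' => ?_
  rw [ev_crMap hg φ hf hβ, ev_crMap hg φ hf ((mem_roots' hg).1 hβ'), map_div₀]

theorem cop_crMap (hg : Good ℓ ζ f) (φ : E →+* E') (hf : f.map φ = f') (hs : f.Splits)
    {a : CR ℓ f} (ha : Cop ℓ f a) : Cop ℓ f' (crMap ℓ φ f f' hf a) := by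
  intro β' hβ'
  obtain ⟨β, hβ, rfl⟩ := root_crMap hg φ hf hs hβ'
  rw [ev_crMap hg φ hf hβ]
  exact (map_ne_zero φ).2 (ha β hβ)

theorem PY.crMap (φ : E →+* E') (hf : f.map φ = f') {J : Ideal (CR ℓ f)} (h : PY ℓ f J) :
    PY ℓ f' (J.map (crMap ℓ φ f f' hf)) := by
  unfold PY at *
  have h1 := congrArg (Ideal.map (Pool.Agent.Y160.SQ.crMap ℓ φ f f' hf)) h
  rw [Ideal.map_sup, Ideal.map_top, Ideal.map_span, Set.image_singleton, crMap_yy] at h1
  exact h1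

theorem map_crMap (φ : E →+* E') (hf : f.map φ = f') {a b : CR ℓ f} {J K : Ideal (CR ℓ f)}
    (h : Ideal.span {a} * J = Ideal.span {b} * K) :
    Ideal.span {crMap ℓ φ f f' hf a} * J.map (crMap ℓ φ f f' hf) =
      Ideal.span {crMap ℓ φ f f' hf b} * K.map (crMap ℓ φ f f' hf) := by
  have := congrArg (Ideal.map (crMap ℓ φ f f' hf)) h
  rw [Ideal.map_mul, Ideal.map_mul, Ideal.map_span, Ideal.map_span, Set.image_singleton,
    Set.image_singleton] at this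
  exact this

/-- The change of constants commutes with the twist. -/
theorem crMap_tw_map (hg : Good ℓ ζ f) (φ : E →+* E') (hf : f.map φ = f') (J : Ideal (CR ℓ f)) :
    (J.map hg.tw).map (crMap ℓ φ f f' hf) = (J.map (crMap ℓ φ f f' hf)).map (hg.map φ hf).tw := by
  rw [Ideal.map_map, Ideal.map_map]
  congr 1
  exact crMap_tw φ hf _ _

theorem chi_map (hg : Good ℓ ζ f) (φ : E →+* E') (hf : f.map φ = f') (hs : f.Splits)
    (I : Ideal (CR ℓ f)) (β z : E) (hβ : f.eval β = 0) (h : Chi hg β z I) :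
    Chi (hg.map φ hf) (φ β) (φ z) (I.map (crMap ℓ φ f f' hf)) := by
  obtain ⟨J, a, b, h1, h2, ha, hb, hab, hz⟩ := h
  refine ⟨J.map (crMap ℓ φ f f' hf), crMap ℓ φ f f' hf a, crMap ℓ φ f f' hf b,
    Eqv.map _ (crMap_inj hg.ne φ hf) h1, PY.crMap φ hf h2, cop_crMap hg φ hf hs ha,
    cop_crMap hg φ hf hs hb, ?_, ?_⟩
  · rw [map_crMap φ hf hab, crMap_tw_map hg φ hf J]
  · rw [rat_crMap hg φ hf hs hβ, rat_crMap hg φ hf hs hβ, ← hz, map_mul]

end functoriality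

theorem stChiA (h1 : StRing) (h2 : StNorm) : StChiA := by
  intro ℓ Ω _ ζ f hg hs
  have := h1 ℓ Ω ζ f hg
  exact ⟨fun I hI h β hβ => chi_ex hg hs I hI h β hβ,
    fun I β z z' hI hβ h h' => chi_unique h2 hg hs I β z z' hI hβ h h',
    fun I β z hI hβ h => chi_pow h2 hg I β z hI hβ h,
    fun I I' β z z' _ _ hβ h h' => chi_mul hg I I' β z z' hβ h h',
    fun I z hI h => chi_prod h2 hg hs I z hI h⟩

theorem stChiF : StChiF := by
  intro ℓ Ω Ω' _ _ φ ζ f f' hf hg hs I β z _ hβ h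
  exact chi_map hg φ hf hs I β z hβ h

end Pool.Agent.Y317.SQ.C
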