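import Pool.Agent.Y160.SQ.Stmts
import Pool.Agent.Y160.SQ.Basic

/-!
# Superelliptic curves: tools about ideals prime to the ramified points
-/

set_option autoImplicit false

open Polynomial IsDedekindDomain
open scoped nonZeroDivisors

namespace Pool.Agent.Y317.SQ.C

open Pool.Agent.Y160.SQ

section eqv

variable {R : Type*} [CommRing R]

theorem Eqv.refl [Nontrivial R] (I : Ideal R) : Eqv I I := ⟨1, 1, one_ne_zero, one_ne_zero, rfl⟩

theorem Eqv.symm {I J : Ideal R} (h : Eqv I J) : Eqv J I := by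
  obtain ⟨a, b, ha, hb, h⟩ := h
  exact ⟨b, a, hb, ha, h.symm⟩

theorem Eqv.trans [IsDomain R] {I J K : Ideal R} (h : Eqv I J) (h' : Eqv J K) : Eqv I K := by
  obtain ⟨a, b, ha, hb, h⟩ := h
  obtain ⟨c, d, hc, hd, h'⟩ := h'
  refine ⟨a * c, b * d, mul_ne_zero ha hc, mul_ne_zero hb hd, ?_⟩
  rw [← Ideal.span_singleton_mul_span_singleton, ← Ideal.span_singleton_mul_span_singleton]
  calc Ideal.span {a} * Ideal.span {c} * I = Ideal.span {c} * (Ideal.span {a} * I) := by ring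
    _ = Ideal.span {b} * (Ideal.span {c} * J) := by rw [h]; ring
    _ = _ := by rw [h']; ring

theorem Eqv.mul [IsDomain R] {I J I' J' : Ideal R} (h : Eqv I J) (h' : Eqv I' J') :
    Eqv (I * I') (J * J') := by
  obtain ⟨a, b, ha, hb, h⟩ := h
  obtain ⟨c, d, hc, hd, h'⟩ := h'
  refine ⟨a * c, b * d, mul_ne_zero ha hc, mul_ne_zero hb hd, ?_⟩
  rw [← Ideal.span_singleton_mul_span_singleton, ← Ideal.span_singleton_mul_span_singleton]
  calc Ideal.span {a} * Ideal.span {c} * (I * I') =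
        (Ideal.span {a} * I) * (Ideal.span {c} * I') := by ring
    _ = (Ideal.span {b} * J) * (Ideal.span {d} * J') := by rw [h, h']
    _ = _ := by ring

theorem Eqv.map {S : Type*} [CommRing S] (φ : R →+* S) (hφ : Function.Injective φ) {I J : Ideal R}
    (h : Eqv I J) : Eqv (I.map φ) (J.map φ) := by
  obtain ⟨a, b, ha, hb, h⟩ := h
  refine ⟨φ a, φ b, (map_ne_zero_iff φ hφ).2 ha, (map_ne_zero_iff φ hφ).2 hb, ?_⟩
  have := congrArg (Ideal.map φ) h
  rw [Ideal.map_mul, Ideal.map_mul, Ideal.map_span, Ideal.map_span, Set.image_singleton,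
    Set.image_singleton] at this
  exact this

/-- Every ideal of a Dedekind domain is equivalent to one prime to `y`. -/
theorem move [IsDedekindDomain R] (y : R) (hy0 : y ≠ 0) (I : Ideal R) (hI : I ≠ ⊥) :
    ∃ J : Ideal R, Eqv I J ∧ J ⊔ Ideal.span {y} = ⊤ ∧ J ≠ ⊥ := by
  by_cases hy : Ideal.span {y} = (⊤ : Ideal R)
  · exact ⟨I, Eqv.refl I, by rw [hy, sup_top_eq], hI⟩
  obtain ⟨g, hg, hg0⟩ := Submodule.exists_mem_ne_zero_of_ne_bot hI
  obtain ⟨I', hI'⟩ := Ideal.dvd_iff_le.2 ((Ideal.span_singleton_le_iff_mem I).2 hg)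
  have hgs : Ideal.span {g} ≠ (⊥ : Ideal R) := by
    rwa [Ne, Ideal.span_singleton_eq_bot]
  have hI'0 : I' ≠ ⊥ := by
    rintro rfl
    rw [Ideal.mul_bot] at hI'
    exact hgs hI'
  obtain ⟨a, ha⟩ := IsDedekindDomain.exists_sup_span_eq (I := Ideal.span {y} * I') (J := I')
    Ideal.mul_le_right (by
      rw [Ideal.zero_eq_bot]
      refine mul_ne_zero ?_ hI'0
      rwa [Ne, Ideal.zero_eq_bot, Ideal.span_singleton_eq_bot])
  have haI : a ∈ I' := by
    rw [← ha]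
    exact Ideal.mem_sup_right (Ideal.mem_span_singleton_self a)
  have ha0 : a ≠ 0 := by
    rintro rfl
    apply hy
    rw [Ideal.span_singleton_eq_bot.2 rfl, sup_bot_eq] at ha
    have : Ideal.span {y} * I' = 1 * I' := by rw [one_mul]; exact ha
    rw [← Ideal.one_eq_top]
    exact mul_right_cancel₀ hI'0 this
  obtain ⟨J, hJ⟩ := Ideal.dvd_iff_le.2 ((Ideal.span_singleton_le_iff_mem I').2 haI)
  refine ⟨J, ⟨a, g, ha0, hg0, ?_⟩, ?_, ?_⟩
  · rw [hJ, hI']
    ring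
  · rw [hJ] at ha
    have h2 : I' * (J ⊔ Ideal.span {y}) = I' * ⊤ := by
      rw [Ideal.mul_sup, Ideal.mul_top, sup_comm, mul_comm I' (Ideal.span {y})]
      exact ha
    exact mul_left_cancel₀ hI'0 h2
  · rintro rfl
    rw [Ideal.mul_bot, Ideal.span_singleton_eq_bot] at hJ
    exact ha0 hJ

end eqv

section cop

variable {ℓ : ℕ} {E : Type} [Field E] {ζ : E} {f : E[X]}

theorem yy_ne (hg : Good ℓ ζ f) : yy ℓ f ≠ 0 := by
  intro h
  have h1 := yy_pow ℓ f
  rw [h, zero_pow hg.ne] at h1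
  have h2 := xp_inj (f := f) hg.ne (h1.symm.trans xp_zero.symm)
  exact hg.monic.ne_zero h2

theorem tw_inj (hg : Good ℓ ζ f) : Function.Injective hg.tw := by
  intro a b hab
  have h1 : (hg.tw ^ (ℓ - 1)) (hg.tw a) = (hg.tw ^ (ℓ - 1)) (hg.tw b) := by rw [hab]
  have h2 : ∀ x, (hg.tw ^ (ℓ - 1)) (hg.tw x) = x := by
    intro x
    have h3 : (hg.tw ^ (ℓ - 1)) * hg.tw = hg.tw ^ ℓ := by
      rw [← pow_succ, Nat.sub_add_cancel hg.one_lt.le]
    have h4 := congrArg (fun g : CR ℓ f →+* CR ℓ f => g x) h3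
    have h5 := tw_iter_ℓ (f := f) hg.root.pow_eq_one x
    exact h4.trans h5
  rw [h2, h2] at h1
  exact h1

theorem stMove (h : StRing) : StMove := by
  intro ℓ E _ ζ f hg I hI
  have := h ℓ E ζ f hg
  obtain ⟨J, h1, h2, -⟩ := move (yy ℓ f) (yy_ne hg) I hI
  exact ⟨J, h1, h2⟩

theorem ev_mul (hg : Good ℓ ζ f) {β : E} (hβ : f.eval β = 0) (a b : CR ℓ f) :
    ev ℓ f β (a * b) = ev ℓ f β a * ev ℓ f β b := by
  rw [ev_eq hg.ne hβ, map_mul]

theorem ev_one (hg : Good ℓ ζ f) {β : E} (hβ : f.eval β = 0) : ev ℓ f β (1 : CR ℓ f) = 1 := by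
  rw [ev_eq hg.ne hβ, map_one]

theorem ev_const (hg : Good ℓ ζ f) {β : E} (hβ : f.eval β = 0) (c : E) :
    ev ℓ f β (xp ℓ f (C c)) = c := by
  rw [ev_eq hg.ne hβ, evR_xp, eval_C]

theorem ev_tw (hg : Good ℓ ζ f) (β : E) (a : CR ℓ f) : ev ℓ f β (hg.tw a) = ev ℓ f β a := by
  by_cases hβ : f.eval β = 0
  · rw [ev_eq hg.ne hβ]
    exact evR_tw _ hβ _ a
  · unfold ev
    rw [dif_neg (fun h => hβ h.2), dif_neg (fun h => hβ h.2)]

open scoped Classical in
theorem mem_roots' (hg : Good ℓ ζ f) {β : E} : β ∈ f.roots.toFinset ↔ f.eval β = 0 := by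
  rw [Multiset.mem_toFinset, mem_roots hg.monic.ne_zero]
  rfl

theorem rat_mul (hg : Good ℓ ζ f) {β : E} (hβ : f.eval β = 0) (a b : CR ℓ f) :
    rat ℓ f β (a * b) = rat ℓ f β a * rat ℓ f β b := by
  unfold rat
  rw [← Finset.prod_mul_distrib]
  refine Finset.prod_congr rfl fun β' hβ' => ?_
  rw [ev_mul hg hβ, ev_mul hg ((mem_roots' hg).1 hβ'), mul_div_mul_comm]

theorem rat_tw (hg : Good ℓ ζ f) (β : E) (a : CR ℓ f) : rat ℓ f β (hg.tw a) = rat ℓ f β a := by
  unfold rat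
  simp only [ev_tw hg]

theorem rat_const (hg : Good ℓ ζ f) {β : E} (hβ : f.eval β = 0) {c : E} (hc : c ≠ 0) :
    rat ℓ f β (xp ℓ f (C c)) = 1 := by
  unfold rat
  refine Finset.prod_eq_one fun β' hβ' => ?_
  rw [ev_const hg hβ, ev_const hg ((mem_roots' hg).1 hβ'), div_self hc]

theorem rat_ne (hg : Good ℓ ζ f) {β : E} (hβ : f.eval β = 0) {a : CR ℓ f} (ha : Cop ℓ f a) :
    rat ℓ f β a ≠ 0 := by
  unfold rat
  exact Finset.prod_ne_zero_iff.2 fun β' hβ' =>
    div_ne_zero (ha β hβ) (ha β' ((mem_roots' hg).1 hβ'))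

theorem cop_ne (hg : Good ℓ ζ f) {β : E} (hβ : f.eval β = 0) {a : CR ℓ f} (ha : Cop ℓ f a) :
    a ≠ 0 := by
  rintro rfl
  apply ha β hβ
  rw [ev_eq hg.ne hβ, map_zero]

theorem cop_mul (hg : Good ℓ ζ f) {a b : CR ℓ f} (ha : Cop ℓ f a) (hb : Cop ℓ f b) :
    Cop ℓ f (a * b) := fun β hβ => by
  rw [ev_mul hg hβ]
  exact mul_ne_zero (ha β hβ) (hb β hβ)

theorem cop_tw (hg : Good ℓ ζ f) {a : CR ℓ f} (ha : Cop ℓ f a) : Cop ℓ f (hg.tw a) := fun β hβ => by
  rw [ev_tw hg]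
  exact ha β hβ

/-- Prime to the ramified points. -/
theorem cop_iff (hg : Good ℓ ζ f) (hs : f.Splits) (a : CR ℓ f) :
    Cop ℓ f a ↔ Ideal.span {a} ⊔ Ideal.span {yy ℓ f} = ⊤ := by
  have hℓ := hg.ne
  constructor
  · intro h
    by_contra hne
    obtain ⟨M, hM, hle⟩ := Ideal.exists_le_maximal _ hne
    have ha : a ∈ M := hle (Ideal.mem_sup_left (Ideal.mem_span_singleton_self a))
    have hy : yy ℓ f ∈ M := hle (Ideal.mem_sup_right (Ideal.mem_span_singleton_self _))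
    have hf : xp ℓ f f ∈ M := by
      rw [← yy_pow]
      exact Ideal.pow_mem_of_mem M hy ℓ (Nat.pos_of_ne_zero hℓ)
    have hf' : xp ℓ f (f.roots.map (fun β => X - C β)).prod ∈ M := by
      rw [← hs.eq_prod_roots_of_monic hg.monic]
      exact hf
    have hpr := hM.isPrime
    obtain ⟨β, hβ, hβM⟩ : ∃ β ∈ f.roots, xp ℓ f (X - C β) ∈ M := by
      have h1 : ∀ s : Multiset E, xp ℓ f (s.map (fun β => X - C β)).prod ∈ M →
          ∃ β ∈ s, xp ℓ f (X - C β) ∈ M := by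
        intro s
        induction s using Multiset.induction_on with
        | empty =>
          intro h0
          rw [Multiset.map_zero, Multiset.prod_zero, xp_one] at h0
          exact absurd ((Ideal.eq_top_iff_one M).2 h0) hM.ne_top
        | cons β s ih =>
          intro h0
          rw [Multiset.map_cons, Multiset.prod_cons, xp_mul] at h0
          rcases hpr.mem_or_mem h0 with h0 | h0
          · exact ⟨β, Multiset.mem_cons_self β s, h0⟩
          · obtain ⟨γ, hγ, h1⟩ := ih h0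
            exact ⟨γ, Multiset.mem_cons_of_mem hγ, h1⟩
      exact h1 _ hf'
    have hβ0 : f.eval β = 0 := by
      rw [mem_roots hg.monic.ne_zero] at hβ
      exact hβ
    have hker : RingHom.ker (evR ℓ hℓ f β hβ0) ≤ M := by
      rw [evR_ker, Ideal.span_le]
      rintro x (rfl | rfl)
      · exact hβM
      · exact hy
    have hmax : (RingHom.ker (evR ℓ hℓ f β hβ0)).IsMaximal := by
      apply RingHom.ker_isMaximal_of_surjective
      intro c
      exact ⟨xp ℓ f (C c), by rw [evR_xp, eval_C]⟩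
    have heq := hmax.eq_of_le hM.ne_top hker
    have hak : a ∈ RingHom.ker (evR ℓ hℓ f β hβ0) := by rw [heq]; exact ha
    rw [RingHom.mem_ker] at hak
    apply h β hβ0
    rw [ev_eq hℓ hβ0]
    exact hak
  · intro h β hβ h0
    have h1 : (1 : CR ℓ f) ∈ Ideal.span {a} ⊔ Ideal.span {yy ℓ f} := by rw [h]; trivial
    have h2 : Ideal.span {a} ⊔ Ideal.span {yy ℓ f} ≤ RingHom.ker (evR ℓ hℓ f β hβ) := by
      rw [sup_le_iff, Ideal.span_singleton_le_iff_mem, Ideal.span_singleton_le_iff_mem,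
        RingHom.mem_ker, RingHom.mem_ker]
      rw [ev_eq hℓ hβ] at h0
      exact ⟨h0, evR_yy hℓ hβ⟩
    have h3 := h2 h1
    rw [RingHom.mem_ker, map_one] at h3
    exact one_ne_zero h3

/-- Prime to the ramified points. -/
def PY (ℓ : ℕ) {E : Type} [Field E] (f : E[X]) (J : Ideal (CR ℓ f)) : Prop :=
  J ⊔ Ideal.span {yy ℓ f} = ⊤

theorem PY.mul {J K : Ideal (CR ℓ f)} (h : PY ℓ f J) (h' : PY ℓ f K) : PY ℓ f (J * K) := by
  unfold PY at *
  rw [← Ideal.isCoprime_iff_sup_eq] at *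
  exact h.mul_left h'

theorem PY.tw (hg : Good ℓ ζ f) {J : Ideal (CR ℓ f)} (h : PY ℓ f J) : PY ℓ f (J.map hg.tw) := by
  unfold PY at *
  have h1 := congrArg (Ideal.map hg.tw) h
  rw [Ideal.map_sup, Ideal.map_top, Ideal.map_span, Set.image_singleton] at h1
  rw [eq_top_iff, ← h1]
  refine sup_le_sup le_rfl ?_
  rw [Ideal.span_singleton_le_iff_mem, Ideal.mem_span_singleton]
  exact ⟨xp ℓ f (C ζ), by rw [tw_yy, mul_comm]⟩

theorem PY.ne_bot (hg : Good ℓ ζ f) (hd : f.natDegree ≠ 0) {J : Ideal (CR ℓ f)}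
    (hs : f.Splits) (h : PY ℓ f J) : J ≠ ⊥ := by
  rintro rfl
  obtain ⟨β, hβ⟩ := hs.exists_eval_eq_zero (by
    rw [degree_eq_natDegree hg.monic.ne_zero]
    exact_mod_cast hd)
  have h1 : Cop ℓ f (0 : CR ℓ f) := by
    rw [cop_iff hg hs]
    unfold PY at h
    rw [Ideal.span_singleton_eq_bot.2 rfl]
    exact h
  exact cop_ne hg hβ h1 rfl

/-- Change of the numerator and the denominator. -/
theorem change [IsDomain (CR ℓ f)] (hg : Good ℓ ζ f) (hs : f.Splits) {J K : Ideal (CR ℓ f)}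
    (hJ : PY ℓ f J) (hK : PY ℓ f K) (h : Eqv J K) :
    ∃ a b : CR ℓ f, Cop ℓ f a ∧ Cop ℓ f b ∧ Ideal.span {a} * J = Ideal.span {b} * K := by
  obtain ⟨u, v, hu, hv, h⟩ := h
  obtain ⟨j, hj, r, hr, hjr⟩ := Submodule.mem_sup.1
    (show (1 : CR ℓ f) ∈ J ⊔ Ideal.span {yy ℓ f} by unfold PY at hJ; rw [hJ]; trivial)
  have h1 : u * j ∈ Ideal.span {v} * K := by
    rw [← h]
    exact Ideal.mul_mem_mul (Ideal.mem_span_singleton_self u) hj
  have h2 := Ideal.mul_le_right (I := K) (J := Ideal.span {v}) (by rw [mul_comm] at h1; exact h1)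
  obtain ⟨a, ha⟩ := Ideal.mem_span_singleton.1 h2
  have hjC : Cop ℓ f j := by
    rw [cop_iff hg hs, Ideal.eq_top_iff_one, ← hjr]
    exact Submodule.add_mem_sup (Ideal.mem_span_singleton_self j) hr
  have heq : Ideal.span {a} * J = Ideal.span {j} * K := by
    rw [← Ideal.span_singleton_mul_right_inj hv, ← mul_assoc,
      Ideal.span_singleton_mul_span_singleton, ← ha, mul_comm u j,
      ← Ideal.span_singleton_mul_span_singleton, mul_assoc, h]
    ring
  refine ⟨a, j, ?_, hjC, heq⟩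
  rw [cop_iff hg hs]
  have h3 : PY ℓ f (Ideal.span {j} * K) := PY.mul ((cop_iff hg hs j).1 hjC) hK
  unfold PY at h3
  rw [← heq] at h3
  rw [eq_top_iff, ← h3]
  exact sup_le_sup Ideal.mul_le_left le_rfl

/-- Equal principal ideals have the same normalised values. -/
theorem rat_span [IsDomain (CR ℓ f)] (hN : StNorm) (hg : Good ℓ ζ f) {β : E} (hβ : f.eval β = 0)
    {a b : CR ℓ f} (h : Ideal.span {a} = Ideal.span {b}) :
    ∃ c : E, c ≠ 0 ∧ a = xp ℓ f (C c) * b ∧ rat ℓ f β a = rat ℓ f β b := by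
  rw [Ideal.span_singleton_eq_span_singleton] at h
  obtain ⟨w, hw⟩ := h.symm
  obtain ⟨c, hc, hwc⟩ := (hN ℓ E ζ f hg).2.1 w w.isUnit
  refine ⟨c, hc, ?_, ?_⟩
  · rw [← hw, hwc, mul_comm]
  · rw [← hw, rat_mul hg hβ, hwc, rat_const hg hβ hc, mul_one]

end cop

end Pool.Agent.Y317.SQ.C
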