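import Pool.Agent.Y317.SQ.DVal
import Pool.Agent.Y317.SQ.CChi

/-!
# The pairing of classes fixed by the twist with the ramified points is bijective
-/

set_option autoImplicit false
set_option linter.all false

open Polynomial
open scoped nonZeroDivisors

namespace Pool.Agent.Y317.SQ.D

open Pool.Agent.Y160.SQ

section h90

variable {ℓ : ℕ} {L : Type} [Field L] {f : L[X]} {ζ : L} (hg : Good ℓ ζ f)
  [hD : IsDedekindDomain (CR ℓ f)]

include hg

theorem prim_xp : IsPrimitiveRoot (xp ℓ f (C ζ)) ℓ := by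
  have h1 : Function.Injective (fun c : L => xp ℓ f (C c)) := fun a b hab =>
    C_injective (xp_inj (hℓ0 hg) hab)
  have h2 := hg.root.map_of_injective
    (f := (AdjoinRoot.of (X ^ ℓ - C f : L[X][X])).comp (C : L →+* L[X])) h1
  exact h2

include hD

/-- Hilbert 90. -/
theorem h90 {a b : CR ℓ f} (ha : a ≠ 0) (hb : b ≠ 0)
    (hN : ∏ i ∈ Finset.range ℓ, (hg.tw ^ i) a = ∏ i ∈ Finset.range ℓ, (hg.tw ^ i) b) :
    ∃ g : CR ℓ f, g ≠ 0 ∧ a * hg.tw g = b * g := by
  classical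
  set σ := hg.tw with hσ
  set c : ℕ → CR ℓ f := fun i =>
    (∏ j ∈ Finset.range i, (σ ^ j) a) * ∏ j ∈ Finset.Ico i ℓ, (σ ^ j) b with hc
  have hc0 : c 0 ≠ 0 := by
    simp only [hc]
    rw [Finset.prod_range_zero, one_mul, Nat.Ico_zero_eq_range]
    exact Finset.prod_ne_zero_iff.2 fun j _ => by
      intro h
      exact hb (tw_pow_inj hg j (by rw [h, map_zero]))
  have hcl : c ℓ = c 0 := by
    simp only [hc]
    rw [Finset.prod_range_zero, one_mul, Nat.Ico_zero_eq_range, Finset.Ico_self,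
      Finset.prod_empty, mul_one, hN]
  have hstep : ∀ i, i < ℓ → a * σ (c i) = b * c (i + 1) := by
    intro i hi
    simp only [hc]
    rw [map_mul, map_prod, map_prod]
    have e1 : ∀ (x : CR ℓ f) (j : ℕ), σ ((σ ^ j) x) = (σ ^ (j + 1)) x := fun x j =>
      (tw_succ hg j x).symm
    simp only [e1]
    rw [Finset.prod_range_succ' (fun j => (σ ^ j) a)]
    have e2 : ∏ j ∈ Finset.Ico i ℓ, (σ ^ (j + 1)) b =
        (∏ j ∈ Finset.Ico (i + 1) ℓ, (σ ^ j) b) * b := by
      rw [Finset.prod_Ico_add' (fun j => (σ ^ j) b) i ℓ 1,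
        Finset.prod_Ico_succ_top (by omega : i + 1 ≤ ℓ)]
      congr 1
      exact tw_ell hg b
    rw [e2]
    have e3 : (σ ^ 0) a = a := by rw [pow_zero]; rfl
    rw [e3]
    ring
  have hG : ∀ w : CR ℓ f, a * σ (∑ i ∈ Finset.range ℓ, c i * (σ ^ i) w) =
      b * ∑ i ∈ Finset.range ℓ, c i * (σ ^ i) w := by
    intro w
    rw [map_sum, Finset.mul_sum]
    have e1 : ∀ i ∈ Finset.range ℓ, a * σ (c i * (σ ^ i) w) =
        b * (c (i + 1) * (σ ^ (i + 1)) w) := by
      intro i hi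
      have e4 : σ ((σ ^ i) w) = (σ ^ (i + 1)) w := (tw_succ hg i w).symm
      rw [map_mul, ← mul_assoc, hstep i (Finset.mem_range.1 hi), e4]
      ring
    rw [Finset.sum_congr rfl e1, ← Finset.mul_sum]
    congr 1
    have e2 : ∑ i ∈ Finset.range ℓ, c (i + 1) * (σ ^ (i + 1)) w + c 0 * (σ ^ 0) w =
        ∑ i ∈ Finset.range ℓ, c i * (σ ^ i) w + c ℓ * (σ ^ ℓ) w := by
      rw [← Finset.sum_range_succ' (fun i => c i * (σ ^ i) w),
        ← Finset.sum_range_succ (fun i => c i * (σ ^ i) w)]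
    have e3 : (σ ^ ℓ) w = w := tw_ell hg w
    have e5 : (σ ^ 0) w = w := by rw [pow_zero]; rfl
    rw [e3, e5, hcl] at e2
    exact add_right_cancel e2
  by_contra hno
  push Not at hno
  have hz : ∀ w : CR ℓ f, ∑ i ∈ Finset.range ℓ, c i * (σ ^ i) w = 0 := by
    intro w
    by_contra h
    exact hno _ h (hG w)
  have hz2 : ∀ k : ℕ, ∑ i ∈ Finset.range ℓ, c i * (xp ℓ f (C ζ) ^ i) ^ k = 0 := by
    intro k
    have h1 := hz (yy ℓ f ^ k)
    have e1 : ∀ i : ℕ, (σ ^ i) (yy ℓ f ^ k) = (xp ℓ f (C ζ) ^ i) ^ k * yy ℓ f ^ k := by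
      intro i
      have h0 : (σ ^ i) (yy ℓ f) = xp ℓ f (C (ζ ^ i)) * yy ℓ f := tw_pow_yy hg i
      rw [map_pow, h0, mul_pow, C_pow, xp_pow]
    simp only [e1] at h1
    simp only [← mul_assoc] at h1
    rw [← Finset.sum_mul] at h1
    exact (mul_eq_zero.1 h1).resolve_right (pow_ne_zero _ (yy_ne_zero hg))
  have hz3 : ∑ k ∈ Finset.range ℓ, ∑ i ∈ Finset.range ℓ, c i * (xp ℓ f (C ζ) ^ i) ^ k = 0 :=
    Finset.sum_eq_zero fun k _ => hz2 k
  rw [Finset.sum_comm] at hz3
  simp only [← Finset.mul_sum] at hz3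
  have h0mem : 0 ∈ Finset.range ℓ := Finset.mem_range.2 (Nat.pos_of_ne_zero (hℓ0 hg))
  rw [Finset.sum_eq_single_of_mem 0 h0mem] at hz3
  · simp only [pow_zero, one_pow, Finset.sum_const, Finset.card_range, nsmul_eq_mul, mul_one] at hz3
    rcases mul_eq_zero.1 hz3 with h | h
    · exact hc0 h
    · have h2 : xp ℓ f (C (ℓ : L)) = 0 := by
        rw [map_natCast]
        exact (map_natCast (AdjoinRoot.of (X ^ ℓ - C f : L[X][X])) ℓ).trans h
      exact xp_ne_zero hg (C_ne_zero.2 (ell_ne_zero hg)) h2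
  · intro i hi hi0
    have h1 : xp ℓ f (C ζ) ^ i ≠ 1 :=
      (prim_xp hg).pow_ne_one_of_pos_of_lt hi0 (Finset.mem_range.1 hi)
    have h2 : (xp ℓ f (C ζ) ^ i) ^ ℓ = 1 := by
      rw [← pow_mul, mul_comm, pow_mul, (prim_xp hg).pow_eq_one, one_pow]
    have h3 := geom_sum_mul (xp ℓ f (C ζ) ^ i) ℓ
    rw [h2, sub_self] at h3
    rw [(mul_eq_zero.1 h3).resolve_right (sub_ne_zero.2 h1), mul_zero]

end h90

section stable

variable {ℓ : ℕ} {L : Type} [Field L] {f : L[X]} {ζ : L} (hg : Good ℓ ζ f)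
  [hD : IsDedekindDomain (CR ℓ f)]

include hg hD

/-- A stable ideal whose valuations at the ramified points are multiples of `ℓ` comes from `L[x]`. -/
theorem stable_xp (hs : f.Splits) (hM : StMax) (M : Ideal (CR ℓ f)) (h0 : M ≠ ⊥)
    (hst : M.map hg.tw = M) (hv : ∀ β, f.eval β = 0 → ℓ ∣ vv ℓ f β M) :
    ∃ q : L[X], q ≠ 0 ∧ M = Ideal.span {xp ℓ f q} := by
  classical
  induction M using IsNoetherian.induction with
  | hgt M ih =>
    by_cases htop : M = ⊤
    · exact ⟨1, one_ne_zero, by rw [xp_one, Ideal.span_singleton_one, htop]⟩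
    obtain ⟨P, hPmax, hMP⟩ := Ideal.exists_le_maximal M htop
    have hP0 : P ≠ ⊥ := by
      rintro rfl
      exact h0 (le_bot_iff.1 hMP)
    have hPp := hPmax.isPrime
    obtain ⟨p, hp, hpm, hcase⟩ := hM ℓ L ζ f hg P hPp hP0
    have hxmem : xp ℓ f p ∈ P := by
      rcases hcase with ⟨_, d, c, _, _, h, _⟩ | ⟨_, h, _⟩ <;> rw [h] <;>
        exact Ideal.subset_span (by simp)
    have hdiv : Ideal.span {xp ℓ f p} ∣ M := by
      rcases hcase with ⟨hpf, d, c, hdℓ, hc, h, hPd, hprod⟩ | ⟨hpf, h, hpow⟩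
      · rw [← hprod]
        obtain ⟨k, hk⟩ : ∃ k, k = ℓ / d := ⟨_, rfl⟩
        have hdk : d * k = ℓ := by rw [hk]; exact Nat.mul_div_cancel' hdℓ
        rw [← hk] at h
        have hk0 : 0 < k := by
          rcases Nat.eq_zero_or_pos k with h0' | h0'
          · rw [h0', mul_zero] at hdk
            exact absurd hdk.symm (hℓ0 hg)
          · exact h0'
        have hprime : ∀ i : ℕ, (P.map (hg.tw ^ i)).IsPrime := by
          intro i
          apply Ideal.map_isPrime_of_surjective (tw_pow_surj hg i)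
          intro x hx
          have : (hg.tw ^ i) x = 0 := hx
          have h1 : x = 0 := tw_pow_inj hg i (by rw [this, map_zero])
          rw [h1]
          exact P.zero_mem
        have hinj : Set.InjOn (fun i : ℕ => P.map (hg.tw ^ i)) (Finset.range d : Set ℕ) := by
          have key : ∀ i j : ℕ, i < j → j < d → P.map (hg.tw ^ i) ≠ P.map (hg.tw ^ j) := by
            intro i j hij hj heq
            have hy : yy ℓ f ^ k - xp ℓ f c ∈ P := by
              rw [h]
              exact Ideal.subset_span (by simp)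
            have h1 : (hg.tw ^ i) (yy ℓ f ^ k - xp ℓ f c) ∈ P.map (hg.tw ^ i) :=
              Ideal.mem_map_of_mem _ hy
            have h2 : (hg.tw ^ j) (yy ℓ f ^ k - xp ℓ f c) ∈ P.map (hg.tw ^ i) := by
              rw [heq]
              exact Ideal.mem_map_of_mem _ hy
            have h3 := Ideal.sub_mem _ h1 h2
            rw [map_sub, map_sub, map_pow, map_pow, tw_pow_xp hg, tw_pow_xp hg, tw_pow_yy hg,
              tw_pow_yy hg, mul_pow, mul_pow, ← xp_pow, ← xp_pow, ← C_pow, ← C_pow, ← pow_mul,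
              ← pow_mul] at h3
            have e1 : xp ℓ f (C (ζ ^ (i * k))) * yy ℓ f ^ k - xp ℓ f c -
                (xp ℓ f (C (ζ ^ (j * k))) * yy ℓ f ^ k - xp ℓ f c) =
                xp ℓ f (C (ζ ^ (i * k) - ζ ^ (j * k))) * yy ℓ f ^ k := by
              rw [C_sub, xp_sub]
              ring
            rw [e1] at h3
            have hijk : i * k < j * k := Nat.mul_lt_mul_of_pos_right hij hk0
            have hjk : j * k < ℓ := by
              rw [← hdk]
              exact Nat.mul_lt_mul_of_pos_right hj hk0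
            have hne : ζ ^ (i * k) - ζ ^ (j * k) ≠ 0 := by
              rw [sub_ne_zero]
              intro h4
              have := hg.root.pow_inj (lt_trans hijk hjk) hjk h4
              omega
            have h5 : yy ℓ f ∈ P.map (hg.tw ^ i) := by
              have h6 := Ideal.mul_mem_left _ (xp ℓ f (C (ζ ^ (i * k) - ζ ^ (j * k))⁻¹)) h3
              rw [← mul_assoc, ← xp_mul, ← C_mul, inv_mul_cancel₀ hne, C_1, xp_one, one_mul] at h6
              exact (hprime i).mem_of_pow_mem k h6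
            have h7 : xp ℓ f p ∈ P.map (hg.tw ^ i) := by
              have := Ideal.mem_map_of_mem (hg.tw ^ i) hxmem
              rwa [tw_pow_xp hg] at this
            exact hpf (dvd_f_of_mem hg (hprime i).ne_top hp h7 h5)
          intro i hi j hj heq
          simp only [Finset.coe_range, Set.mem_Iio] at hi hj
          by_contra hne
          rcases lt_or_gt_of_ne hne with h1 | h1
          · exact key i j h1 hj heq
          · exact key j i h1 hi heq.symm
        rw [← Finset.prod_image (f := fun I : Ideal (CR ℓ f) => I) hinj]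
        apply Finset.prod_primes_dvd
        · intro Q hQ
          rw [Finset.mem_image] at hQ
          obtain ⟨i, _, rfl⟩ := hQ
          exact Ideal.prime_of_isPrime (map_pow_ne_bot hg i hP0) (hprime i)
        · intro Q hQ
          rw [Finset.mem_image] at hQ
          obtain ⟨i, _, rfl⟩ := hQ
          rw [Ideal.dvd_iff_le]
          have h1 := Ideal.map_mono (f := hg.tw ^ i) hMP
          rwa [map_stable_pow hg hst] at h1
      · have hps : p.Splits := hs.of_dvd (f_ne_zero hg) hpf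
        obtain ⟨β, hβ⟩ := hps.exists_eval_eq_zero (by
          intro h1
          exact hp.not_isUnit (isUnit_iff_degree_eq_zero.2 h1))
        have hfβ : f.eval β = 0 := by
          obtain ⟨q, hq⟩ := hpf
          rw [hq, eval_mul, hβ, zero_mul]
        have h1 : (X - C β) ∣ p := dvd_iff_isRoot.2 hβ
        have h2 : Associated (X - C β) p :=
          (irreducible_X_sub_C β).associated_of_dvd hp h1
        have h3 := eq_of_monic_of_associated (monic_X_sub_C β) hpm h2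
        have h4 : P = PP ℓ f β := by
          rw [h, PP, h3]
        rw [← hpow, h4]
        have h5 : vv ℓ f β M ≠ 0 := by
          intro h6
          rw [vv_eq_zero hg] at h6
          rw [h4] at hMP
          exact h6 hMP
        have h7 : ℓ ≤ vv ℓ f β M := Nat.le_of_dvd (Nat.pos_of_ne_zero h5) (hv β hfβ)
        exact (pow_dvd_pow _ h7).trans (pow_multiplicity_dvd _ _)
    obtain ⟨M', hM'⟩ := hdiv
    have hxp0 : xp ℓ f p ≠ 0 := xp_ne_zero hg hp.ne_zero
    have hM'0 : M' ≠ ⊥ := by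
      rintro rfl
      exact h0 (by rw [hM', Ideal.mul_bot])
    have hlt : M < M' := by
      apply lt_of_le_of_ne
      · rw [hM']
        exact Ideal.mul_le_right (I := Ideal.span {xp ℓ f p}) (J := M')
      · intro heq
        have h1 : Ideal.span {xp ℓ f p} * M' = 1 * M' := by rw [← hM', one_mul, heq]
        have h2 := mul_right_cancel₀ (show M' ≠ 0 from hM'0) h1
        rw [Ideal.one_eq_top] at h2
        apply hPmax.ne_top
        rw [eq_top_iff, ← h2, Ideal.span_singleton_le_iff_mem]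
        exact hxmem
    have hst' : M'.map hg.tw = M' := by
      have h1 : Ideal.span {xp ℓ f p} * M'.map hg.tw = Ideal.span {xp ℓ f p} * M' := by
        rw [← hM']
        conv_rhs => rw [← hst, hM', Ideal.map_mul, Ideal.map_span, Set.image_singleton, tw_xp]
      exact mul_left_cancel₀ (show Ideal.span {xp ℓ f p} ≠ 0 from span_ne hg hxp0) h1
    have hv' : ∀ β, f.eval β = 0 → ℓ ∣ vv ℓ f β M' := by
      intro β hβ
      have h1 := hv β hβ
      rw [hM', vv_mul hg hβ (span_ne hg hxp0) hM'0] at h1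
      exact (Nat.dvd_add_right (vv_xp hg hM hβ hp.ne_zero)).1 h1
    obtain ⟨q, hq0, hq⟩ := ih M' hlt hM'0 hst' hv'
    refine ⟨p * q, mul_ne_zero hp.ne_zero hq0, ?_⟩
    rw [hM', hq, Ideal.span_singleton_mul_span_singleton, xp_mul]

/-- The local form of a function and its twist at a ramified point. -/
theorem loc2 (hM : StMax) {β : L} (hβ : f.eval β = 0) {g : CR ℓ f} (hg0 : g ≠ 0) {m : ℕ}
    (h : vv ℓ f β (Ideal.span {g}) = m) :
    ∃ u, ev ℓ f β u ≠ 0 ∧
      hg.tw g * xp ℓ f (C (ζ ^ ((ℓ - 1) * m))) * u = g * hg.tw u := by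
  obtain ⟨u, hu, hue⟩ := loc hg hM hβ hg0 (k := (ℓ - 1) * m) (s := m) (by
    rw [h]
    obtain ⟨l, hl⟩ : ∃ l, ℓ = l + 1 := ⟨ℓ - 1, by have := hg.one_lt; omega⟩
    rw [hl, Nat.add_sub_cancel]
    ring)
  refine ⟨u, hue, ?_⟩
  have h1 := congrArg hg.tw hu
  rw [map_mul, map_mul, map_pow, tw_yy, tw_xp, mul_pow, ← xp_pow, ← C_pow] at h1
  have hX : xp ℓ f ((X - C β) ^ m) ≠ 0 := xp_ne_zero hg (pow_ne_zero _ (X_sub_C_ne_zero β))
  have hy : yy ℓ f ^ ((ℓ - 1) * m) ≠ 0 := pow_ne_zero _ (yy_ne_zero hg)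
  have h2 : (xp ℓ f ((X - C β) ^ m) * yy ℓ f ^ ((ℓ - 1) * m)) *
      (hg.tw g * xp ℓ f (C (ζ ^ ((ℓ - 1) * m))) * u) =
      (xp ℓ f ((X - C β) ^ m) * yy ℓ f ^ ((ℓ - 1) * m)) * (g * hg.tw u) := by
    calc _ = (hg.tw g * (xp ℓ f (C (ζ ^ ((ℓ - 1) * m))) * yy ℓ f ^ ((ℓ - 1) * m))) *
          (xp ℓ f ((X - C β) ^ m) * u) := by ring
      _ = _ := by rw [h1, ← hu]; ring
  exact mul_left_cancel₀ (mul_ne_zero hX hy) h2

end stable

section norm

variable {ℓ : ℕ} {L : Type} [Field L] {f : L[X]} {ζ : L} (hg : Good ℓ ζ f)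
  [hD : IsDedekindDomain (CR ℓ f)]

include hg hD

/-- Norms of the two elements of a relation. -/
theorem norm_rel (hN : StNorm) {a b : CR ℓ f} {J : Ideal (CR ℓ f)} (hJ : J ≠ ⊥)
    (h : Ideal.span {a} * J = Ideal.span {b} * J.map hg.tw) (hr : ∃ β, f.eval β = 0) :
    ∃ c : L, c ≠ 0 ∧ ∏ i ∈ Finset.range ℓ, (hg.tw ^ i) a =
      xp ℓ f (C c) * ∏ i ∈ Finset.range ℓ, (hg.tw ^ i) b := by
  have h1 := Pool.Agent.Y317.SQ.C.prod_tw hg (a := b) (b := a) (I := ⊤) (J := J) (by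
    rw [Ideal.top_mul, h])
  have h2 : ∏ i ∈ Finset.range ℓ, (⊤ : Ideal (CR ℓ f)).map (hg.tw ^ i) = 1 := by
    apply Finset.prod_eq_one
    intro i _
    rw [Ideal.map_top, Ideal.one_eq_top]
  rw [h2, one_mul] at h1
  have h3 : ∏ i ∈ Finset.range ℓ, J.map (hg.tw ^ i) ≠ 0 :=
    Finset.prod_ne_zero_iff.2 fun i _ => map_pow_ne_bot hg i hJ
  have h4 := mul_right_cancel₀ h3 h1
  obtain ⟨β, hβ⟩ := hr
  obtain ⟨c, hc, hc2, _⟩ := Pool.Agent.Y317.SQ.C.rat_span hN hg hβ h4.symm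
  exact ⟨c, hc, hc2⟩

end norm

section roots

variable {ℓ : ℕ} {L : Type} [Field L] {f : L[X]} {ζ : L} (hg : Good ℓ ζ f)

include hg

open scoped Classical in
theorem card_roots (hs : f.Splits) : f.roots.toFinset.card = f.natDegree := by
  rw [Multiset.toFinset_card_of_nodup (nodup_roots hg.sep)]
  exact hs.natDegree_eq_card_roots.symm

open scoped Classical in
theorem prod_roots_map (z : L → L) : ∏ β ∈ f.roots.toFinset, z β = (f.roots.map z).prod := by
  rw [Finset.prod, Multiset.toFinset_val, Multiset.dedup_eq_self.2 (nodup_roots hg.sep)]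

open scoped Classical in
theorem rat_div {β : L} (hs : f.Splits) (a b : CR ℓ f) : rat ℓ f β a / rat ℓ f β b =
    (ev ℓ f β a / ev ℓ f β b) ^ f.natDegree /
      ∏ β' ∈ f.roots.toFinset, (ev ℓ f β' a / ev ℓ f β' b) := by
  unfold rat
  rw [← Finset.prod_div_distrib, ← card_roots hg hs, ← Finset.prod_const,
    ← Finset.prod_div_distrib]
  exact Finset.prod_congr rfl fun β' _ => by rw [div_div_div_comm]

end roots

theorem stChiI (h1 : StRing) (h2 : StNorm) (h3 : StMax) (h4 : StNmI) (h5 : StChiA) : StChiI := by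
  classical
  intro ℓ L _ ζ f hg hs I hI hchi
  have hD := h1 ℓ L ζ f hg
  have hℓ := hℓ0 hg
  obtain ⟨β0, hβ0⟩ := exists_root_of_splits hg hs
  obtain ⟨J, a, b, hIJ, hJy, ha, hb, hab, hz⟩ := hchi β0 hβ0
  have hJ : J ≠ ⊥ := Pool.Agent.Y317.SQ.C.Eqv.ne_bot hIJ hI
  have ha0 : a ≠ 0 := Pool.Agent.Y317.SQ.C.cop_ne hg hβ0 ha
  have hb0 : b ≠ 0 := Pool.Agent.Y317.SQ.C.cop_ne hg hβ0 hb
  have hrat : ∀ β, f.eval β = 0 → rat ℓ f β a / rat ℓ f β b = 1 := by
    intro β hβ
    have e1 : Chi hg β (rat ℓ f β a / rat ℓ f β b) I :=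
      ⟨J, a, b, hIJ, hJy, ha, hb, hab, by
        rw [div_mul_cancel₀ _ (Pool.Agent.Y317.SQ.C.rat_ne hg hβ hb)]⟩
    exact (h5 ℓ L ζ f hg hs).2.1 I β _ _ hI hβ e1 (hchi β hβ)
  obtain ⟨c, hc, hc2⟩ := norm_rel hg h2 hJ hab ⟨β0, hβ0⟩
  set h : L → L := fun β => ev ℓ f β a / ev ℓ f β b with hh
  have hne : ∀ β, f.eval β = 0 → h β ≠ 0 := fun β hβ => div_ne_zero (ha β hβ) (hb β hβ)
  have hpowl : ∀ β, f.eval β = 0 → h β ^ ℓ = c := by
    intro β hβ
    have e1 := congrArg (ev ℓ f β) hc2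
    rw [ev_mul hℓ hβ, Pool.Agent.Y317.SQ.C.ev_norm hg hβ, Pool.Agent.Y317.SQ.C.ev_norm hg hβ,
      ev_xp hℓ hβ, eval_C] at e1
    simp only [hh]
    rw [div_pow, e1, mul_div_assoc, div_self (pow_ne_zero _ (hb β hβ)), mul_one]
  have hpown : ∀ β, f.eval β = 0 → h β ^ f.natDegree = ∏ β' ∈ f.roots.toFinset, h β' := by
    intro β hβ
    have e1 := hrat β hβ
    rw [rat_div hg hs] at e1
    have e2 : ∏ β' ∈ f.roots.toFinset, (ev ℓ f β' a / ev ℓ f β' b) ≠ 0 :=
      Finset.prod_ne_zero_iff.2 fun β' hβ' =>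
        hne β' ((Pool.Agent.Y317.SQ.C.mem_roots' hg).1 hβ')
    exact (div_eq_one_iff_eq e2).1 e1
  have hconst : ∀ β, f.eval β = 0 → h β = h β0 := by
    intro β hβ
    have e1 : (h β / h β0) ^ ℓ = 1 := by
      rw [div_pow, hpowl β hβ, hpowl β0 hβ0, div_self hc]
    have e2 : (h β / h β0) ^ f.natDegree = 1 := by
      rw [div_pow, hpown β hβ, hpown β0 hβ0, div_self]
      exact Finset.prod_ne_zero_iff.2 fun β' hβ' =>
        hne β' ((Pool.Agent.Y317.SQ.C.mem_roots' hg).1 hβ')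
    have e3 := pow_gcd_eq_one.2 ⟨e1, e2⟩
    have e4 : ℓ.gcd f.natDegree = 1 := hg.cop
    rw [e4, pow_one] at e3
    exact (div_eq_one_iff_eq (hne β0 hβ0)).1 e3
  set b1 := xp ℓ f (C (h β0)) * b with hb1
  have hxc : xp ℓ f (C (h β0)) ≠ 0 := xp_ne_zero hg (C_ne_zero.2 (hne β0 hβ0))
  have hb10 : b1 ≠ 0 := mul_ne_zero hxc hb0
  have hspan : Ideal.span {b1} = Ideal.span {b} := by
    rw [hb1]
    apply Ideal.span_singleton_mul_left_unit
    have e1 : IsUnit (C (h β0) : L[X]) := isUnit_C.2 (isUnit_iff_ne_zero.2 (hne β0 hβ0))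
    exact e1.map (AdjoinRoot.of (X ^ ℓ - C f : L[X][X]))
  have hN1 : ∏ i ∈ Finset.range ℓ, (hg.tw ^ i) a = ∏ i ∈ Finset.range ℓ, (hg.tw ^ i) b1 := by
    rw [hc2, hb1]
    simp only [map_mul, tw_pow_xp hg]
    rw [Finset.prod_mul_distrib, Finset.prod_const, Finset.card_range, ← xp_pow, ← C_pow,
      hpowl β0 hβ0]
  have hev : ∀ β, f.eval β = 0 → ev ℓ f β b1 = ev ℓ f β a := by
    intro β hβ
    rw [hb1, ev_mul hℓ hβ, ev_xp hℓ hβ, eval_C, ← hconst β hβ]
    simp only [hh]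
    rw [div_mul_cancel₀ _ (hb β hβ)]
  obtain ⟨g, hg0, hgab⟩ := h90 hg ha0 hb10 hN1
  set M := Ideal.span {g} * J with hM
  have hM0 : M ≠ ⊥ := mul_ne_zero (span_ne hg hg0) hJ
  have hMst : M.map hg.tw = M := by
    have e1 : Ideal.span {a} * M.map hg.tw = Ideal.span {a} * M := by
      rw [hM, Ideal.map_mul, Ideal.map_span, Set.image_singleton]
      calc Ideal.span {a} * (Ideal.span {hg.tw g} * J.map hg.tw)
          = Ideal.span {a * hg.tw g} * J.map hg.tw := by
            rw [← Ideal.span_singleton_mul_span_singleton]; ring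
        _ = Ideal.span {g} * (Ideal.span {b} * J.map hg.tw) := by
            rw [hgab, ← Ideal.span_singleton_mul_span_singleton, hspan]; ring
        _ = _ := by rw [← hab]; ring
    exact mul_left_cancel₀ (show Ideal.span {a} ≠ 0 from span_ne hg ha0) e1
  have hvM : ∀ β, f.eval β = 0 → ℓ ∣ vv ℓ f β M := by
    intro β hβ
    rw [hM, vv_mul hg hβ (span_ne hg hg0) hJ, vv_coprime hg hβ hJy, add_zero]
    set m := vv ℓ f β (Ideal.span {g}) with hm
    obtain ⟨u, hu, hu2⟩ := loc2 hg h3 hβ hg0 hm.symm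
    have e1 : g * (a * hg.tw u) = g * (b1 * xp ℓ f (C (ζ ^ ((ℓ - 1) * m))) * u) := by
      calc _ = a * (g * hg.tw u) := by ring
        _ = (a * hg.tw g) * xp ℓ f (C (ζ ^ ((ℓ - 1) * m))) * u := by rw [← hu2]; ring
        _ = _ := by rw [hgab]; ring
    have e2 := congrArg (ev ℓ f β) (mul_left_cancel₀ hg0 e1)
    rw [ev_mul hℓ hβ, ev_mul hℓ hβ, ev_mul hℓ hβ, ev_tw hg hβ, ev_xp hℓ hβ, eval_C,
      hev β hβ] at e2
    have e3 : ζ ^ ((ℓ - 1) * m) = 1 := by
      have h6 := mul_ne_zero (ha β hβ) hu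
      apply mul_left_cancel₀ h6
      rw [mul_one]
      linear_combination -e2
    have e4 := hg.root.dvd_of_pow_eq_one _ e3
    have e5 : ℓ.Coprime (ℓ - 1) := by
      have : ℓ = (ℓ - 1) + 1 := by have := hg.one_lt; omega
      rw [Nat.coprime_comm]
      conv_rhs => rw [this]
      simp
    exact e5.dvd_of_dvd_mul_left e4
  obtain ⟨q, hq0, hq⟩ := stable_xp hg hs h3 M hM0 hMst hvM
  refine Pool.Agent.Y317.SQ.C.Eqv.trans hIJ ⟨g, xp ℓ f q, hg0, xp_ne_zero hg hq0, ?_⟩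
  rw [← hM, hq, Ideal.mul_top]

section div

variable {ℓ : ℕ} {L : Type} [Field L] {f : L[X]} {ζ : L} (hg : Good ℓ ζ f)
  [hD : IsDedekindDomain (CR ℓ f)]

include hg hD

theorem vv_ne {β β' : L} (hβ : f.eval β = 0) (hβ' : f.eval β' = 0) (hne : β ≠ β') :
    vv ℓ f β (PP ℓ f β') = 0 := by
  rw [vv_eq_zero hg]
  intro h
  have h1 : xp ℓ f (X - C β') ∈ PP ℓ f β := h (Ideal.subset_span (by simp))
  rw [mem_PP (hℓ0 hg) hβ, ev_xp (hℓ0 hg) hβ, eval_sub, eval_X, eval_C, sub_eq_zero] at h1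
  exact hne h1

theorem vv_prod {β : L} (hβ : f.eval β = 0) (s : Finset L) (A : L → Ideal (CR ℓ f))
    (hA : ∀ i ∈ s, A i ≠ ⊥) : vv ℓ f β (∏ i ∈ s, A i) = ∑ i ∈ s, vv ℓ f β (A i) := by
  classical
  induction s using Finset.induction_on with
  | empty => rw [Finset.prod_empty, Finset.sum_empty, vv_one hg hβ]
  | insert i s hi ih =>
    rw [Finset.prod_insert hi, Finset.sum_insert hi,
      vv_mul hg hβ (hA i (Finset.mem_insert_self i s)), ih]
    · intro j hj
      exact hA j (Finset.mem_insert_of_mem hj)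
    · exact Finset.prod_ne_zero_iff.2 fun j hj => hA j (Finset.mem_insert_of_mem hj)

end div

theorem stChiS (h1 : StRing) (h2 : StNorm) (h3 : StMax) (h4 : StNmI) (h5 : StChiA) : StChiS := by
  classical
  intro ℓ L _ ζ f hg hs z hz hzp
  have hD := h1 ℓ L ζ f hg
  have hℓ := hℓ0 hg
  obtain ⟨β0, hβ0⟩ := exists_root_of_splits hg hs
  have hroot : ∀ β, β ∈ f.roots.toFinset ↔ f.eval β = 0 := fun β =>
    Pool.Agent.Y317.SQ.C.mem_roots' hg
  -- the exponents
  have : NeZero ℓ := ⟨hℓ⟩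
  have hex : ∀ β, ∃ e : ℕ, f.eval β = 0 → ζ ^ e = z β := by
    intro β
    by_cases hβ : f.eval β = 0
    · obtain ⟨e, _, he⟩ := hg.root.eq_pow_of_pow_eq_one (hz β hβ)
      exact ⟨e, fun _ => he⟩
    · exact ⟨0, fun h => absurd h hβ⟩
  choose e he using hex
  obtain ⟨n', hn'⟩ : ∃ n' : ℕ, n' * f.natDegree ≡ 1 [MOD ℓ] := by
    obtain ⟨m, hm⟩ := Nat.exists_mul_mod_eq_one_of_coprime hg.cop.symm hg.one_lt
    refine ⟨m, ?_⟩
    rw [Nat.ModEq, mul_comm, hm.2, Nat.mod_eq_of_lt hg.one_lt]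
  set m : L → ℕ := fun β => (ℓ - 1) * (n' * e β) with hm
  set D := ∏ β ∈ f.roots.toFinset, (PP ℓ f β) ^ m β with hDdef
  have hPPne : ∀ β, (PP ℓ f β) ^ m β ≠ ⊥ := fun β => pow_ne_zero _ (PP_ne_bot hg β)
  have hD0 : D ≠ ⊥ := Finset.prod_ne_zero_iff.2 fun β _ => hPPne β
  have hDst : D.map hg.tw = D := by
    have e1 : ∀ s : Finset L, (∏ β ∈ s, (PP ℓ f β) ^ m β).map hg.tw =
        ∏ β ∈ s, (PP ℓ f β) ^ m β := by
      intro s
      induction s using Finset.induction_on with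
      | empty => rw [Finset.prod_empty, Ideal.one_eq_top, Ideal.map_top]
      | insert i s hi ih =>
        rw [Finset.prod_insert hi, Ideal.map_mul, ih, Ideal.map_pow]
        congr 2
        have := PP_map hg 1 i
        rwa [pow_one] at this
    exact e1 _
  have hvD : ∀ β, f.eval β = 0 → vv ℓ f β D = m β := by
    intro β hβ
    rw [hDdef, vv_prod hg hβ _ _ (fun β' _ => hPPne β'), Finset.sum_eq_single_of_mem β
      ((hroot β).2 hβ)]
    · rw [vv_pow hg hβ (PP_ne_bot hg β), vv_self hg hβ, mul_one]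
    · intro β' hβ' hne
      rw [vv_pow hg hβ (PP_ne_bot hg β'), vv_ne hg hβ ((hroot β').1 hβ') hne.symm, mul_zero]
  obtain ⟨J, ⟨u, v, hu, hv, huv⟩, hJy, hJ⟩ :=
    Pool.Agent.Y317.SQ.C.move (yy ℓ f) (yy_ne_zero hg) D hD0
  have htu : hg.tw u ≠ 0 := fun h => hu (tw_inj hg (by rw [h, map_zero]))
  have htv : hg.tw v ≠ 0 := fun h => hv (tw_inj hg (by rw [h, map_zero]))
  have htJy : J.map hg.tw ⊔ Ideal.span {yy ℓ f} = ⊤ := Pool.Agent.Y317.SQ.C.PY.tw hg hJy
  have huv' := Pool.Agent.Y317.SQ.C.tw_map hg huv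
  rw [hDst] at huv'
  have hrel : Ideal.span {hg.tw u * v} * J = Ideal.span {u * hg.tw v} * J.map hg.tw := by
    rw [← Ideal.span_singleton_mul_span_singleton, ← Ideal.span_singleton_mul_span_singleton]
    calc _ = Ideal.span {hg.tw u} * (Ideal.span {v} * J) := by ring
      _ = Ideal.span {u} * (Ideal.span {hg.tw u} * D) := by rw [← huv]; ring
      _ = _ := by rw [huv']; ring
  obtain ⟨a, b, ha, hb, ha0, hb0, hab⟩ := T2 hg (mul_ne_zero htu hv) (mul_ne_zero hu htv) hrel hJy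
    htJy ⟨β0, hβ0⟩
  have hspan : Ideal.span {a} * J = Ideal.span {b} * J.map hg.tw := by
    have e1 : Ideal.span {u * hg.tw v} * (Ideal.span {a} * J) =
        Ideal.span {u * hg.tw v} * (Ideal.span {b} * J.map hg.tw) := by
      calc _ = Ideal.span {a * (u * hg.tw v)} * J := by
            rw [← Ideal.span_singleton_mul_span_singleton a]; ring
        _ = Ideal.span {b} * (Ideal.span {hg.tw u * v} * J) := by
            rw [hab, ← Ideal.span_singleton_mul_span_singleton b]; ring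
        _ = _ := by rw [hrel]; ring
    exact mul_left_cancel₀ (show Ideal.span {u * hg.tw v} ≠ 0 from
      span_ne hg (mul_ne_zero hu htv)) e1
  -- the values
  have hval : ∀ β, f.eval β = 0 → ev ℓ f β a = z β ^ n' * ev ℓ f β b := by
    intro β hβ
    have hvv : vv ℓ f β (Ideal.span {u}) + m β = vv ℓ f β (Ideal.span {v}) := by
      have e1 := congrArg (vv ℓ f β) huv
      rw [vv_mul hg hβ (span_ne hg hu) hD0, vv_mul hg hβ (span_ne hg hv) hJ, hvD β hβ,
        vv_coprime hg hβ hJy, add_zero] at e1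
      exact e1
    set r := vv ℓ f β (Ideal.span {u}) with hr
    set t := vv ℓ f β (Ideal.span {v}) with ht
    obtain ⟨u', hu', hu2⟩ := loc2 hg h3 hβ hu hr.symm
    obtain ⟨v', hv', hv2⟩ := loc2 hg h3 hβ hv ht.symm
    have e1 : (u * v) * (a * hg.tw v' * xp ℓ f (C (ζ ^ ((ℓ - 1) * r))) * u') =
        (u * v) * (b * hg.tw u' * xp ℓ f (C (ζ ^ ((ℓ - 1) * t))) * v') := by
      calc _ = a * u * (v * hg.tw v') * xp ℓ f (C (ζ ^ ((ℓ - 1) * r))) * u' := by ring
        _ = (a * (u * hg.tw v)) * xp ℓ f (C (ζ ^ ((ℓ - 1) * t))) * v' *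
            xp ℓ f (C (ζ ^ ((ℓ - 1) * r))) * u' := by rw [← hv2]; ring
        _ = b * v * xp ℓ f (C (ζ ^ ((ℓ - 1) * t))) * v' *
            (hg.tw u * xp ℓ f (C (ζ ^ ((ℓ - 1) * r))) * u') := by rw [hab]; ring
        _ = _ := by rw [hu2]; ring
    have e2 := congrArg (ev ℓ f β) (mul_left_cancel₀ (mul_ne_zero hu hv) e1)
    simp only [ev_mul hℓ hβ, ev_tw hg hβ, ev_xp hℓ hβ, eval_C] at e2
    have e3 : ev ℓ f β a * ζ ^ ((ℓ - 1) * r) = ev ℓ f β b * ζ ^ ((ℓ - 1) * t) := by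
      apply mul_right_cancel₀ (mul_ne_zero hu' hv')
      linear_combination e2
    rw [← hvv, mul_add, pow_add] at e3
    have e4 : ev ℓ f β a = ev ℓ f β b * ζ ^ ((ℓ - 1) * m β) := by
      apply mul_right_cancel₀ (pow_ne_zero ((ℓ - 1) * r) (hg.root.ne_zero hℓ))
      linear_combination e3
    have e5 : ζ ^ ((ℓ - 1) * m β) = z β ^ n' := by
      rw [← he β hβ, ← pow_mul]
      simp only [hm]
      obtain ⟨l, hl⟩ : ∃ l, ℓ = l + 2 := ⟨ℓ - 2, by have := hg.one_lt; omega⟩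
      have e6 : (ℓ - 1) * ((ℓ - 1) * (n' * e β)) = ℓ * (l * (n' * e β)) + e β * n' := by
        rw [hl]
        have : l + 2 - 1 = l + 1 := by omega
        rw [this]
        ring
      rw [e6, pow_add, pow_mul, hg.root.pow_eq_one, one_pow, one_mul]
    rw [e4, e5, mul_comm]
  have hdiv : ∀ β, f.eval β = 0 → ev ℓ f β a / ev ℓ f β b = z β ^ n' := by
    intro β hβ
    rw [hval β hβ, mul_div_assoc, div_self (hb β hβ), mul_one]
  refine ⟨J, hJ, ⟨a, b, ha0, hb0, hspan⟩, ?_⟩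
  intro β hβ
  refine ⟨J, a, b, Pool.Agent.Y317.SQ.C.Eqv.refl J, hJy, ha, hb, hspan, ?_⟩
  have hrb := Pool.Agent.Y317.SQ.C.rat_ne hg hβ hb
  have e1 : rat ℓ f β a / rat ℓ f β b = z β := by
    rw [rat_div hg hs, hdiv β hβ]
    have e2 : ∏ β' ∈ f.roots.toFinset, (ev ℓ f β' a / ev ℓ f β' b) = 1 := by
      rw [Finset.prod_congr rfl fun β' hβ' => hdiv β' ((hroot β').1 hβ'), Finset.prod_pow,
        prod_roots_map hg, hzp, one_pow]
    rw [e2, div_one, ← pow_mul]
    rw [pow_eq_pow_of_modEq hn' (hz β hβ), pow_one]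
  rw [← e1, div_mul_cancel₀ _ hrb]

end Pool.Agent.Y317.SQ.D
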