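import Pool.Agent.Y160.SQ.Stmts
import Pool.Agent.Y160.SQ.Basic

/-!
# Galois descent for ideal classes of `E[x, y] / (y ^ ℓ - f)`
-/

set_option autoImplicit false
set_option linter.all false

open Polynomial
open scoped nonZeroDivisors

namespace Pool.Agent.Y317.SQ.D

open Pool.Agent.Y160.SQ

/-! ### Coefficients -/

section coeffs

variable {L : Type} [Field L]

/-- The set of the pairs `(j, i)` with nonzero coefficient of `x ^ i * y ^ j`. -/
noncomputable def spt (p : L[X][X]) : Finset (ℕ × ℕ) :=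
  p.support.biUnion fun j => (p.coeff j).support.image fun i => (j, i)

theorem mem_spt {p : L[X][X]} {s : ℕ × ℕ} : s ∈ spt p ↔ (p.coeff s.1).coeff s.2 ≠ 0 := by
  obtain ⟨j, i⟩ := s
  unfold spt
  simp only [Finset.mem_biUnion, Finset.mem_image, Polynomial.mem_support_iff, Prod.mk.injEq]
  constructor
  · rintro ⟨j', _, i', h, rfl, rfl⟩
    exact h
  · intro h
    refine ⟨j, ?_, i, h, rfl, rfl⟩
    intro h0
    apply h
    rw [h0, coeff_zero]

theorem spt_eq_empty {p : L[X][X]} (h : spt p = ∅) : p = 0 := by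
  ext j i
  rw [coeff_zero, coeff_zero]
  by_contra h0
  have : (j, i) ∈ spt p := mem_spt.2 h0
  rw [h] at this
  simp at this

variable {ℓ : ℕ} {f : L[X]}

/-- The representative of degree less than `ℓ` in `y`. -/
noncomputable def rep (hℓ : ℓ ≠ 0) (b : CR ℓ f) : L[X][X] :=
  AdjoinRoot.modByMonicHom (monic_cr (f := f) hℓ) b

theorem mk_rep (hℓ : ℓ ≠ 0) (b : CR ℓ f) : AdjoinRoot.mk (X ^ ℓ - C f : L[X][X]) (rep hℓ b) = b :=
  AdjoinRoot.mk_leftInverse (monic_cr (f := f) hℓ) b

theorem rep_mk (hℓ : ℓ ≠ 0) (p : L[X][X]) :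
    rep hℓ (AdjoinRoot.mk (X ^ ℓ - C f : L[X][X]) p) = p %ₘ (X ^ ℓ - C f) :=
  AdjoinRoot.modByMonicHom_mk (monic_cr (f := f) hℓ) p

theorem rep_sub (hℓ : ℓ ≠ 0) (b c : CR ℓ f) : rep hℓ (b - c) = rep hℓ b - rep hℓ c :=
  map_sub _ _ _

theorem rep_smul (hℓ : ℓ ≠ 0) (c : L) (b : CR ℓ f) :
    rep hℓ (xp ℓ f (C c) * b) = C (C c) * rep hℓ b := by
  have h1 : xp ℓ f (C c) * b = (C c : L[X]) • b := by
    rw [Algebra.smul_def]
    rfl
  rw [h1]
  unfold rep
  rw [map_smul, Polynomial.smul_eq_C_mul]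

theorem rep_zero (hℓ : ℓ ≠ 0) : rep hℓ (0 : CR ℓ f) = 0 := map_zero _

theorem eq_zero_of_rep (hℓ : ℓ ≠ 0) {b : CR ℓ f} (h : rep hℓ b = 0) : b = 0 := by
  rw [← mk_rep hℓ b, h, map_zero]

theorem crMap_mk {L' : Type} [Field L'] (φ : L →+* L') {f' : L'[X]} (h : f.map φ = f')
    (p : L[X][X]) : crMap ℓ φ f f' h (AdjoinRoot.mk _ p) =
      AdjoinRoot.mk (X ^ ℓ - C f' : L'[X][X]) (p.map (mapRingHom φ)) := by
  have key : (crMap ℓ φ f f' h).comp (AdjoinRoot.mk (X ^ ℓ - C f : L[X][X])) =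
      (AdjoinRoot.mk (X ^ ℓ - C f' : L'[X][X])).comp (mapRingHom (mapRingHom φ)) := by
    apply Polynomial.ringHom_ext'
    · apply RingHom.ext
      intro q
      show crMap ℓ φ f f' h (xp ℓ f q) = AdjoinRoot.mk _ (mapRingHom (mapRingHom φ) (C q))
      rw [crMap_xp, coe_mapRingHom, map_C]
      rfl
    · show crMap ℓ φ f f' h (yy ℓ f) = AdjoinRoot.mk _ (mapRingHom (mapRingHom φ) X)
      rw [crMap_yy, coe_mapRingHom, map_X]
      rfl
  exact congrArg (fun g : L[X][X] →+* CR ℓ f' => g p) key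

theorem rep_crMap (hℓ : ℓ ≠ 0) {L' : Type} [Field L'] (φ : L →+* L') {f' : L'[X]}
    (h : f.map φ = f') (b : CR ℓ f) :
    rep hℓ (crMap ℓ φ f f' h b) = (rep hℓ b).map (mapRingHom φ) := by
  conv_lhs => rw [← mk_rep hℓ b]
  rw [crMap_mk, rep_mk]
  have e1 : (X ^ ℓ - C f' : L'[X][X]) = (X ^ ℓ - C f : L[X][X]).map (mapRingHom φ) := by
    rw [Polynomial.map_sub, Polynomial.map_pow, map_X, map_C, coe_mapRingHom, h]
  rw [e1, ← Polynomial.map_modByMonic _ (monic_cr hℓ)]
  congr 1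
  rw [← rep_mk hℓ, mk_rep]

end coeffs

/-! ### Descent for stable ideals -/

section desc

variable {E L : Type} [Field E] [Field L] [Algebra E L] [IsGalois E L]

theorem mem_range_of_fixed {x : L} (h : ∀ τ : L ≃ₐ[E] L, τ x = x) :
    ∃ e : E, algebraMap E L e = x := by
  have := (InfiniteGalois.mem_bot_iff_fixed (k := E) (K := L) x).2 h
  exact IntermediateField.mem_bot.1 this

variable {ℓ : ℕ} {f : E[X]} {f' : L[X]}

theorem desc_stable (hℓ : ℓ ≠ 0) (hf : f.map (algebraMap E L) = f')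
    (hτ : ∀ τ : L ≃ₐ[E] L, f'.map (τ : L →+* L) = f') (J : Ideal (CR ℓ f'))
    (hJ : ∀ τ : L ≃ₐ[E] L, ∀ b ∈ J, crMap ℓ (τ : L →+* L) f' f' (hτ τ) b ∈ J) :
    J ≤ (J.comap (crMap ℓ (algebraMap E L) f f' hf)).map (crMap ℓ (algebraMap E L) f f' hf) := by
  set K := (J.comap (crMap ℓ (algebraMap E L) f f' hf)).map
    (crMap ℓ (algebraMap E L) f f' hf) with hK
  -- an element of minimal support
  have main : ∀ (n : ℕ) (b : CR ℓ f'), b ∈ J → (spt (rep hℓ b)).card = n → b ∈ K := by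
    intro n
    induction n using Nat.strong_induction_on with
    | _ n ih =>
      intro b hb hn
      by_cases hb0 : b = 0
      · rw [hb0]; exact K.zero_mem
      -- minimal nonzero support inside the support of b
      have hex : ∃ m, ∃ b1 ∈ J, b1 ≠ 0 ∧ spt (rep hℓ b1) ⊆ spt (rep hℓ b) ∧
          (spt (rep hℓ b1)).card = m := ⟨_, b, hb, hb0, subset_rfl, rfl⟩
      classical
      obtain ⟨b1, hb1J, hb10, hb1s, hb1c⟩ := Nat.find_spec hex
      have hmin : ∀ b2 ∈ J, b2 ≠ 0 → spt (rep hℓ b2) ⊆ spt (rep hℓ b) →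
          (spt (rep hℓ b1)).card ≤ (spt (rep hℓ b2)).card := by
        intro b2 h1 h2 h3
        rw [hb1c]
        exact Nat.find_min' hex ⟨b2, h1, h2, h3, rfl⟩
      have hne : (spt (rep hℓ b1)).Nonempty := by
        rw [Finset.nonempty_iff_ne_empty]
        intro h
        exact hb10 (eq_zero_of_rep hℓ (spt_eq_empty h))
      obtain ⟨s, hs⟩ := hne
      set c0 := ((rep hℓ b1).coeff s.1).coeff s.2 with hc0
      have hc0' : c0 ≠ 0 := mem_spt.1 hs
      -- normalised
      set b2 := xp ℓ f' (C c0⁻¹) * b1 with hb2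
      have hb2J : b2 ∈ J := J.mul_mem_left _ hb1J
      have hcoef : ∀ j i, ((rep hℓ b2).coeff j).coeff i =
          c0⁻¹ * ((rep hℓ b1).coeff j).coeff i := by
        intro j i
        rw [hb2, rep_smul, coeff_C_mul, coeff_C_mul]
      have hs2 : spt (rep hℓ b2) = spt (rep hℓ b1) := by
        ext t
        rw [mem_spt, mem_spt, hcoef]
        simp [hc0']
      have hone : ((rep hℓ b2).coeff s.1).coeff s.2 = 1 := by
        rw [hcoef, ← hc0, inv_mul_cancel₀ hc0']
      -- invariance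
      have hinv : ∀ τ : L ≃ₐ[E] L, crMap ℓ (τ : L →+* L) f' f' (hτ τ) b2 = b2 := by
        intro τ
        by_contra hne
        set b3 := crMap ℓ (τ : L →+* L) f' f' (hτ τ) b2 - b2 with hb3
        have hb30 : b3 ≠ 0 := sub_ne_zero.2 hne
        have hb3J : b3 ∈ J := J.sub_mem (hJ τ b2 hb2J) hb2J
        have hcoef3 : ∀ j i, ((rep hℓ b3).coeff j).coeff i =
            τ (((rep hℓ b2).coeff j).coeff i) - ((rep hℓ b2).coeff j).coeff i := by
          intro j i
          rw [hb3, rep_sub, rep_crMap, coeff_sub, coeff_sub, coeff_map, coe_mapRingHom, coeff_map]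
          rfl
        have hsub : spt (rep hℓ b3) ⊆ (spt (rep hℓ b1)).erase s := by
          intro t ht
          rw [mem_spt, hcoef3] at ht
          rw [Finset.mem_erase, ← hs2, mem_spt]
          refine ⟨?_, ?_⟩
          · rintro rfl
            apply ht
            rw [hone, map_one, sub_self]
          · intro h0
            apply ht
            rw [h0, map_zero, sub_self]
        have h4 := hmin b3 hb3J hb30 ((hsub.trans (Finset.erase_subset _ _)).trans hb1s)
        have h5 := Finset.card_le_card hsub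
        rw [Finset.card_erase_of_mem hs] at h5
        have h6 : 0 < (spt (rep hℓ b1)).card := Finset.card_pos.2 ⟨s, hs⟩
        omega
      -- b2 comes from E
      have hb2K : b2 ∈ K := by
        have hco : ∀ j i, ∃ e : E, algebraMap E L e = ((rep hℓ b2).coeff j).coeff i := by
          intro j i
          apply mem_range_of_fixed
          intro τ
          have h1 : ((rep hℓ (crMap ℓ (τ : L →+* L) f' f' (hτ τ) b2)).coeff j).coeff i =
              ((rep hℓ b2).coeff j).coeff i := by rw [hinv τ]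
          rw [rep_crMap, coeff_map, coe_mapRingHom, coeff_map] at h1
          exact h1
        have hl : rep hℓ b2 ∈ Polynomial.lifts (mapRingHom (algebraMap E L)) := by
          rw [Polynomial.lifts_iff_coeff_lifts]
          intro j
          have : (rep hℓ b2).coeff j ∈ Polynomial.lifts (algebraMap E L) := by
            rw [Polynomial.lifts_iff_coeff_lifts]
            intro i
            obtain ⟨e, he⟩ := hco j i
            exact ⟨e, he⟩
          rw [Polynomial.mem_lifts] at this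
          obtain ⟨q, hq⟩ := this
          exact ⟨q, hq⟩
        rw [Polynomial.mem_lifts] at hl
        obtain ⟨q, hq⟩ := hl
        have e1 : b2 = crMap ℓ (algebraMap E L) f f' hf (AdjoinRoot.mk _ q) := by
          rw [crMap_mk, hq, mk_rep]
        rw [e1]
        apply Ideal.mem_map_of_mem
        rw [Ideal.mem_comap, ← e1]
        exact hb2J
      -- reduce b
      set c1 := ((rep hℓ b).coeff s.1).coeff s.2 with hc1
      set b4 := b - xp ℓ f' (C c1) * b2 with hb4
      have hb4J : b4 ∈ J := J.sub_mem hb (J.mul_mem_left _ hb2J)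
      have hcoef4 : ∀ j i, ((rep hℓ b4).coeff j).coeff i =
          ((rep hℓ b).coeff j).coeff i - c1 * ((rep hℓ b2).coeff j).coeff i := by
        intro j i
        rw [hb4, rep_sub, rep_smul, coeff_sub, coeff_sub, coeff_C_mul, coeff_C_mul]
      have hsub : spt (rep hℓ b4) ⊆ (spt (rep hℓ b)).erase s := by
        intro t ht
        rw [mem_spt, hcoef4] at ht
        rw [Finset.mem_erase]
        refine ⟨?_, ?_⟩
        · rintro rfl
          apply ht
          rw [hone, ← hc1, mul_one, sub_self]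
        · by_contra h0
          have h1 : t ∉ spt (rep hℓ b2) := fun h' => h0 (hb1s (hs2 ▸ h'))
          rw [mem_spt, not_not] at h0 h1
          apply ht
          rw [h0, h1, mul_zero, sub_self]
      have hsb : s ∈ spt (rep hℓ b) := hb1s hs
      have h5 := Finset.card_le_card hsub
      rw [Finset.card_erase_of_mem hsb] at h5
      have h6 : 0 < (spt (rep hℓ b)).card := Finset.card_pos.2 ⟨s, hsb⟩
      have h7 : b4 ∈ K := ih _ (by omega) b4 hb4J rfl
      have h8 : b = b4 + xp ℓ f' (C c1) * b2 := by rw [hb4]; ring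
      rw [h8]
      exact K.add_mem h7 (K.mul_mem_left _ hb2K)
  intro b hb
  exact main _ b hb rfl

end desc

/-! ### The canonical ideal of a class -/

section canon

variable {ℓ : ℕ} {L : Type} [Field L] {ζ : L} {f : L[X]}

/-- Cancellation of the last part -/
theorem stDesc (h1 : StRing) (h2 : StNorm) : StDesc := by
  intro ℓ E L _ _ _ _ ζ f f' hf hg hτ I hI hEqv
  have hℓ : ℓ ≠ 0 := hg.ne
  have hg' : Good ℓ (algebraMap E L ζ) f' := hg.map (algebraMap E L) hf
  have hD : IsDedekindDomain (CR ℓ f') := h1 ℓ L _ f' hg'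
  obtain ⟨n1, n2, n3, n4⟩ := h2 ℓ L _ f' hg'
  -- the twist is injective
  have htwinj : ∀ i : ℕ, Function.Injective (⇑(hg'.tw ^ i)) := by
    intro i
    have hone : (hg'.tw ^ ℓ) = 1 := tw_pow_ℓ _
    intro x y hxy
    have h3 : ∀ z : CR ℓ f', (hg'.tw ^ (i * (ℓ - 1))) ((hg'.tw ^ i) z) = z := by
      intro z
      have e1 : (hg'.tw ^ (i * (ℓ - 1))) ((hg'.tw ^ i) z) =
          (hg'.tw ^ (i * (ℓ - 1)) * hg'.tw ^ i) z := rfl
      rw [e1, ← pow_add]
      have e2 : i * (ℓ - 1) + i = ℓ * i := by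
        obtain ⟨l, rfl⟩ : ∃ l, ℓ = l + 1 := ⟨ℓ - 1, by omega⟩
        simp only [Nat.add_sub_cancel]
        ring
      rw [e2, pow_mul, hone, one_pow]
      rfl
    rw [← h3 x, hxy, h3 y]
  have hnorm0 : ∀ a : CR ℓ f', a ≠ 0 → Algebra.norm L[X] a ≠ 0 := by
    intro a ha h0
    have h3 := n1 a
    rw [h0, xp_zero] at h3
    have h4 := Finset.prod_eq_zero_iff.1 h3.symm
    obtain ⟨i, _, hi⟩ := h4
    exact ha (htwinj i (by rw [hi, map_zero]))
  have hdgmul : ∀ a b : CR ℓ f', a ≠ 0 → b ≠ 0 → dg ℓ f' (a * b) = dg ℓ f' a + dg ℓ f' b := by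
    intro a b ha hb
    unfold dg
    rw [map_mul, natDegree_mul (hnorm0 a ha) (hnorm0 b hb)]
  -- the Galois action
  let tt : (L ≃ₐ[E] L) → CR ℓ f' →+* CR ℓ f' := fun τ => crMap ℓ (τ : L →+* L) f' f' (hτ τ)
  have httinj : ∀ τ : L ≃ₐ[E] L, Function.Injective (⇑(tt τ)) := fun τ => crMap_inj hℓ _ _
  have httsurj : ∀ τ : L ≃ₐ[E] L, Function.Surjective (⇑(tt τ)) := by
    intro τ z
    refine ⟨tt τ⁻¹ z, ?_⟩
    have hc : ((τ : L →+* L).comp ((τ⁻¹ : L ≃ₐ[E] L) : L →+* L)) = RingHom.id L := by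
      apply RingHom.ext
      intro x
      show τ (τ⁻¹ x) = x
      exact τ.apply_symm_apply x
    have hid : f'.map ((τ : L →+* L).comp ((τ⁻¹ : L ≃ₐ[E] L) : L →+* L)) = f' := by
      rw [hc, Polynomial.map_id]
    have h3 := crMap_comp (ℓ := ℓ) ((τ⁻¹ : L ≃ₐ[E] L) : L →+* L) (τ : L →+* L)
      (hτ τ⁻¹) (hτ τ) hid
    have h4 : tt τ (tt τ⁻¹ z) = crMap ℓ ((τ : L →+* L).comp ((τ⁻¹ : L ≃ₐ[E] L) : L →+* L))
        f' f' hid z := by
      rw [h3]; rfl
    rw [h4]
    have h5 : ∀ (φ : L →+* L) (hφ : f'.map φ = f'), φ = RingHom.id L →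
        crMap ℓ φ f' f' hφ z = z := by
      rintro _ hφ rfl
      rw [crMap_id]
      rfl
    exact h5 _ hid hc
  have htttw : ∀ (τ : L ≃ₐ[E] L) (i : ℕ) (a : CR ℓ f'), tt τ ((hg'.tw ^ i) a) = (hg'.tw ^ i) (tt τ a) := by
    intro τ i
    induction i with
    | zero => intro a; rfl
    | succ i ih =>
      intro a
      have e1 : (hg'.tw ^ (i + 1)) a = (hg'.tw ^ i) (hg'.tw a) := by rw [pow_succ]; rfl
      have e2 : (hg'.tw ^ (i + 1)) (tt τ a) = (hg'.tw ^ i) (hg'.tw (tt τ a)) := by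
        rw [pow_succ]; rfl
      rw [e1, e2, ih]
      congr 1
      have hz : (τ : L →+* L) (algebraMap E L ζ) = algebraMap E L ζ := τ.commutes ζ
      have h3 := crMap_tw (ℓ := ℓ) (τ : L →+* L) (hτ τ) hg'.root.pow_eq_one
        (by rw [hz]; exact hg'.root.pow_eq_one)
      have h4 := congrArg (fun g : CR ℓ f' →+* CR ℓ f' => g a) h3
      have h5 : ∀ (η : L) (hη : η ^ ℓ = 1), η = algebraMap E L ζ → ∀ z : CR ℓ f',
          Pool.Agent.Y160.SQ.tw ℓ f' η hη z = hg'.tw z := by
        rintro _ hη rfl z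
        rfl
      have h6 : tt τ (hg'.tw a) =
          Pool.Agent.Y160.SQ.tw ℓ f' ((τ : L →+* L) (algebraMap E L ζ))
            (by rw [hz]; exact hg'.root.pow_eq_one) (tt τ a) := h4
      rw [h6]
      exact h5 _ _ hz _
  have hdgtt : ∀ (τ : L ≃ₐ[E] L) (a : CR ℓ f'), dg ℓ f' (tt τ a) = dg ℓ f' a := by
    intro τ a
    unfold dg
    have h3 : Algebra.norm L[X] (tt τ a) = (Algebra.norm L[X] a).map (τ : L →+* L) := by
      apply xp_inj (f := f') hℓ
      rw [n1]
      have h4 := congrArg (tt τ) (n1 a)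
      rw [map_prod] at h4
      have h5 : tt τ (xp ℓ f' (Algebra.norm L[X] a)) =
          xp ℓ f' ((Algebra.norm L[X] a).map (τ : L →+* L)) := crMap_xp _ _ _
      rw [h5] at h4
      rw [h4]
      exact Finset.prod_congr rfl fun i _ => (htttw τ i a).symm
    rw [h3, natDegree_map]
  -- complementary ideal
  obtain ⟨g, hgI, hg0⟩ := Submodule.exists_mem_ne_zero_of_ne_bot hI
  have hdiv : I ∣ Ideal.span {g} := Ideal.dvd_span_singleton.2 hgI
  obtain ⟨I', hI'⟩ := hdiv
  have hspan0 : ∀ x : CR ℓ f', x ≠ 0 → Ideal.span {x} ≠ ⊥ := by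
    intro x hx h
    exact hx (Ideal.span_singleton_eq_bot.1 h)
  have hI'0 : I' ≠ ⊥ := by
    rintro rfl
    rw [Ideal.mul_bot] at hI'
    exact hspan0 g hg0 hI'
  -- element of minimal degree
  have hex : ∃ m, ∃ a ∈ I', a ≠ 0 ∧ dg ℓ f' a = m := by
    obtain ⟨a, ha, ha0⟩ := Submodule.exists_mem_ne_zero_of_ne_bot hI'0
    exact ⟨_, a, ha, ha0, rfl⟩
  classical
  obtain ⟨a, haI', ha0, ham⟩ := Nat.find_spec hex
  have hmin : ∀ b ∈ I', b ≠ 0 → dg ℓ f' a ≤ dg ℓ f' b := by
    intro b hb hb0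
    rw [ham]
    exact Nat.find_min' hex ⟨b, hb, hb0, rfl⟩
  have huniq : ∀ b ∈ I', b ≠ 0 → dg ℓ f' b = dg ℓ f' a → ∃ c : L, c ≠ 0 ∧
      b = xp ℓ f' (C c) * a := by
    intro b hb hb0 hba
    obtain ⟨c, hc, h3 | h3⟩ := n4 b a hb0 ha0 hba
    · exact ⟨c, hc, h3⟩
    · refine ⟨c, hc, ?_⟩
      by_contra hne
      have h4 : b - xp ℓ f' (C c) * a ≠ 0 := sub_ne_zero.2 hne
      have h5 : b - xp ℓ f' (C c) * a ∈ I' := I'.sub_mem hb (I'.mul_mem_left _ haI')
      have h6 := hmin _ h5 h4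
      omega
  obtain ⟨J, hJ⟩ := Ideal.dvd_span_singleton.2 haI'
  -- hJ : span {a} = I' * J
  have hJ0 : J ≠ ⊥ := by
    rintro rfl
    rw [Ideal.mul_bot] at hJ
    exact hspan0 a ha0 hJ
  have hJI : Eqv J I := by
    refine ⟨g, a, hg0, ha0, ?_⟩
    rw [hI', hJ]
    ring
  have hmapspan : ∀ (τ : L ≃ₐ[E] L) (x : CR ℓ f'), (Ideal.span {x}).map (tt τ) = Ideal.span {tt τ x} := by
    intro τ x
    rw [Ideal.map_span, Set.image_singleton]
  have hmemspan : ∀ (x z : CR ℓ f') (K : Ideal (CR ℓ f')), z ∈ Ideal.span {x} * K →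
      ∃ k ∈ K, z = x * k := by
    intro x z K hz
    rw [Ideal.mem_span_singleton_mul] at hz
    obtain ⟨k, hk, h⟩ := hz
    exact ⟨k, hk, h.symm⟩
  have hunit : ∀ c : L, c ≠ 0 → ∀ x : CR ℓ f', Ideal.span {xp ℓ f' (C c) * x} = Ideal.span {x} := by
    intro c hc x
    apply Ideal.span_singleton_mul_left_unit
    have : IsUnit (C c : L[X]) := isUnit_C.2 (isUnit_iff_ne_zero.2 hc)
    exact this.map (AdjoinRoot.of _)
  -- invariance of J
  have hinv : ∀ τ : L ≃ₐ[E] L, J.map (tt τ) = J := by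
    intro τ
    obtain ⟨u, v, hu, hv, huv⟩ := hEqv τ
    change Ideal.span {u} * I.map (tt τ) = Ideal.span {v} * I at huv
    have e1 : I.map (tt τ) * I'.map (tt τ) = Ideal.span {tt τ g} := by
      rw [← Ideal.map_mul, ← hI', hmapspan]
    have e2 : I'.map (tt τ) * J.map (tt τ) = Ideal.span {tt τ a} := by
      rw [← Ideal.map_mul, ← hJ, hmapspan]
    have htg : tt τ g ≠ 0 := fun h => hg0 (httinj τ (by rw [h, map_zero]))
    have hta : tt τ a ≠ 0 := fun h => ha0 (httinj τ (by rw [h, map_zero]))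
    -- (p) τI' = (q) I'
    have e3 : Ideal.span {v * g} * I'.map (tt τ) = Ideal.span {u * tt τ g} * I' := by
      rw [← Ideal.span_singleton_mul_span_singleton, ← Ideal.span_singleton_mul_span_singleton,
        ← e1, hI']
      have : Ideal.span {v} * (I * I') * I'.map (tt τ) =
          (Ideal.span {v} * I) * I' * I'.map (tt τ) := by ring
      rw [this, ← huv]
      ring
    set p := v * g with hp
    set q := u * tt τ g with hq
    have hp0 : p ≠ 0 := mul_ne_zero hv hg0
    have hq0 : q ≠ 0 := mul_ne_zero hu htg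
    have hmem : p * tt τ a ∈ Ideal.span {q} * I' := by
      rw [← e3]
      exact Ideal.mul_mem_mul (Ideal.mem_span_singleton_self _) (Ideal.mem_map_of_mem _ haI')
    obtain ⟨a'', ha''I, ha''⟩ := hmemspan _ _ _ hmem
    have ha''0 : a'' ≠ 0 := by
      rintro rfl
      rw [mul_zero] at ha''
      exact mul_ne_zero hp0 hta ha''
    have hd1 : dg ℓ f' p + dg ℓ f' a = dg ℓ f' q + dg ℓ f' a'' := by
      rw [← hdgmul q a'' hq0 ha''0, ← ha'', hdgmul p _ hp0 hta, hdgtt]
    have hd2 : dg ℓ f' a'' = dg ℓ f' a := by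
      apply le_antisymm _ (hmin a'' ha''I ha''0)
      -- q * a = p * y with y in τI'
      have h3 : q * a ∈ Ideal.span {p} * I'.map (tt τ) := by
        rw [e3]
        exact Ideal.mul_mem_mul (Ideal.mem_span_singleton_self _) haI'
      obtain ⟨y, hyI, hy⟩ := hmemspan _ _ _ h3
      have hy' : y ∈ Ideal.map (tt τ) I' := hyI
      rw [Ideal.mem_map_iff_of_surjective _ (httsurj τ)] at hy'
      obtain ⟨x, hxI, rfl⟩ := hy'
      have hx0 : x ≠ 0 := by
        rintro rfl
        rw [map_zero, mul_zero] at hy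
        exact mul_ne_zero hq0 ha0 hy
      have htx : tt τ x ≠ 0 := fun h => hx0 (httinj τ (by rw [h, map_zero]))
      have h4 : dg ℓ f' q + dg ℓ f' a = dg ℓ f' p + dg ℓ f' x := by
        rw [← hdgmul q a hq0 ha0, hy, hdgmul p _ hp0 htx, hdgtt]
      have h5 := hmin x hxI hx0
      omega
    obtain ⟨c, hc, hca⟩ := huniq a'' ha''I ha''0 hd2
    have e4 : Ideal.span {p} * Ideal.span {tt τ a} = Ideal.span {q} * Ideal.span {a} := by
      rw [Ideal.span_singleton_mul_span_singleton, Ideal.span_singleton_mul_span_singleton,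
        ha'', hca, show q * (xp ℓ f' (C c) * a) = xp ℓ f' (C c) * (q * a) by ring, hunit c hc]
    -- cancel
    have e5 : (Ideal.span {q} * I') * J.map (tt τ) = (Ideal.span {q} * I') * J := by
      have h3 : (Ideal.span {q} * I') * J.map (tt τ) =
          Ideal.span {p} * (I'.map (tt τ) * J.map (tt τ)) := by
        rw [← e3]; ring
      rw [h3, e2, e4, hJ]
      ring
    have hne : Ideal.span {q} * I' ≠ ⊥ := by
      intro h
      rcases Ideal.mul_eq_bot.1 h with h | h
      · exact hspan0 q hq0 h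
      · exact hI'0 h
    exact mul_left_cancel₀ hne e5
  -- descend
  have hle := desc_stable hℓ hf hτ J (fun τ b hb => by
    have : tt τ b ∈ J.map (tt τ) := Ideal.mem_map_of_mem _ hb
    rw [hinv τ] at this
    exact this)
  have heq : (J.comap (crMap ℓ (algebraMap E L) f f' hf)).map
      (crMap ℓ (algebraMap E L) f f' hf) = J := le_antisymm Ideal.map_comap_le hle
  refine ⟨J.comap (crMap ℓ (algebraMap E L) f f' hf), ?_, ?_⟩
  · intro h
    rw [h, Ideal.map_bot] at heq
    exact hJ0 heq.symm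
  · rw [heq]
    exact hJI

end canon

end Pool.Agent.Y317.SQ.D
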