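import Pool.Agent.Y160.SQ.Stmts
import Pool.Agent.Y160.SQ.Basic

/-!
# Valuations at the ramified points of `y ^ ℓ = f(x)`, stable ideals, Hilbert 90
-/

set_option autoImplicit false
set_option linter.all false

open Polynomial
open scoped nonZeroDivisors

namespace Pool.Agent.Y317.SQ.D

open Pool.Agent.Y160.SQ

section ev

variable {ℓ : ℕ} {L : Type} [Field L] {f : L[X]}

theorem ev_mul (hℓ : ℓ ≠ 0) {β : L} (hβ : f.eval β = 0) (a b : CR ℓ f) :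
    ev ℓ f β (a * b) = ev ℓ f β a * ev ℓ f β b := by
  rw [ev_eq hℓ hβ, map_mul]

theorem ev_pow (hℓ : ℓ ≠ 0) {β : L} (hβ : f.eval β = 0) (a : CR ℓ f) (n : ℕ) :
    ev ℓ f β (a ^ n) = ev ℓ f β a ^ n := by
  rw [ev_eq hℓ hβ, map_pow]

theorem ev_one (hℓ : ℓ ≠ 0) {β : L} (hβ : f.eval β = 0) : ev ℓ f β (1 : CR ℓ f) = 1 := by
  rw [ev_eq hℓ hβ, map_one]

theorem ev_sub (hℓ : ℓ ≠ 0) {β : L} (hβ : f.eval β = 0) (a b : CR ℓ f) :
    ev ℓ f β (a - b) = ev ℓ f β a - ev ℓ f β b := by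
  rw [ev_eq hℓ hβ, map_sub]

theorem ev_xp (hℓ : ℓ ≠ 0) {β : L} (hβ : f.eval β = 0) (p : L[X]) :
    ev ℓ f β (xp ℓ f p) = p.eval β := by
  rw [ev_eq hℓ hβ, evR_xp]

theorem ev_yy (hℓ : ℓ ≠ 0) {β : L} (hβ : f.eval β = 0) : ev ℓ f β (yy ℓ f) = 0 := by
  rw [ev_eq hℓ hβ, evR_yy]

variable {ζ : L} (hg : Good ℓ ζ f)

include hg

theorem ev_tw {β : L} (hβ : f.eval β = 0) (a : CR ℓ f) :
    ev ℓ f β (hg.tw a) = ev ℓ f β a := by
  rw [ev_eq hg.ne hβ, evR_tw]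

theorem ev_tw_pow {β : L} (hβ : f.eval β = 0) (i : ℕ) (a : CR ℓ f) :
    ev ℓ f β ((hg.tw ^ i) a) = ev ℓ f β a := by
  induction i generalizing a with
  | zero => rfl
  | succ i ih =>
    have e1 : (hg.tw ^ (i + 1)) a = (hg.tw ^ i) (hg.tw a) := by rw [pow_succ]; rfl
    rw [e1, ih, ev_tw hg hβ]

end ev

section ring

variable {ℓ : ℕ} {L : Type} [Field L] {f : L[X]} {ζ : L} (hg : Good ℓ ζ f)

include hg

theorem hℓ0 : ℓ ≠ 0 := hg.ne

theorem tw_succ (i : ℕ) (x : CR ℓ f) : (hg.tw ^ (i + 1)) x = hg.tw ((hg.tw ^ i) x) := by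
  rw [pow_succ']; rfl

theorem tw_succ' (i : ℕ) (x : CR ℓ f) : (hg.tw ^ (i + 1)) x = (hg.tw ^ i) (hg.tw x) := by
  rw [pow_succ]; rfl

theorem tw_ell (x : CR ℓ f) : (hg.tw ^ ℓ) x = x := tw_iter_ℓ _ x

theorem tw_pow_xp (i : ℕ) (p : L[X]) : (hg.tw ^ i) (xp ℓ f p) = xp ℓ f p := by
  induction i with
  | zero => rfl
  | succ i ih => rw [tw_succ hg, ih, tw_xp]

theorem tw_pow_yy (i : ℕ) : (hg.tw ^ i) (yy ℓ f) = xp ℓ f (C (ζ ^ i)) * yy ℓ f := by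
  induction i with
  | zero =>
    rw [pow_zero, pow_zero, C_1, xp_one, one_mul]; rfl
  | succ i ih =>
    rw [tw_succ hg, ih, map_mul, tw_xp, tw_yy, ← mul_assoc, ← xp_mul, ← C_mul, pow_succ]

theorem tw_pow_inj (i : ℕ) : Function.Injective (⇑(hg.tw ^ i)) := by
  have hone : (hg.tw ^ ℓ) = 1 := tw_pow_ℓ _
  intro x y hxy
  have h3 : ∀ z : CR ℓ f, (hg.tw ^ (i * (ℓ - 1))) ((hg.tw ^ i) z) = z := by
    intro z
    have e1 : (hg.tw ^ (i * (ℓ - 1))) ((hg.tw ^ i) z) =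
        (hg.tw ^ (i * (ℓ - 1)) * hg.tw ^ i) z := rfl
    rw [e1, ← pow_add]
    have e2 : i * (ℓ - 1) + i = ℓ * i := by
      have := hℓ0 hg
      obtain ⟨l, rfl⟩ : ∃ l, ℓ = l + 1 := ⟨ℓ - 1, by omega⟩
      simp only [Nat.add_sub_cancel]
      ring
    rw [e2, pow_mul, hone, one_pow]
    rfl
  rw [← h3 x, hxy, h3 y]

theorem tw_pow_surj (i : ℕ) : Function.Surjective (⇑(hg.tw ^ i)) := by
  have hone : (hg.tw ^ ℓ) = 1 := tw_pow_ℓ _
  intro z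
  refine ⟨(hg.tw ^ (i * (ℓ - 1))) z, ?_⟩
  have e1 : (hg.tw ^ i) ((hg.tw ^ (i * (ℓ - 1))) z) =
      (hg.tw ^ i * hg.tw ^ (i * (ℓ - 1))) z := rfl
  rw [e1, ← pow_add]
  have e2 : i + i * (ℓ - 1) = ℓ * i := by
    have := hℓ0 hg
    obtain ⟨l, rfl⟩ : ∃ l, ℓ = l + 1 := ⟨ℓ - 1, by omega⟩
    simp only [Nat.add_sub_cancel]
    ring
  rw [e2, pow_mul, hone, one_pow]
  rfl

theorem tw_inj : Function.Injective (⇑hg.tw) := by
  have := tw_pow_inj hg 1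
  rwa [pow_one] at this

theorem map_succ (i : ℕ) (J : Ideal (CR ℓ f)) :
    J.map (hg.tw ^ (i + 1)) = (J.map (hg.tw ^ i)).map hg.tw := by
  rw [Ideal.map_map]
  congr 1
  rw [pow_succ']
  rfl

theorem map_succ' (i : ℕ) (J : Ideal (CR ℓ f)) :
    J.map (hg.tw ^ (i + 1)) = (J.map hg.tw).map (hg.tw ^ i) := by
  rw [Ideal.map_map]
  congr 1

theorem map_zero' (J : Ideal (CR ℓ f)) : J.map (hg.tw ^ 0) = J := by
  rw [pow_zero]
  exact Ideal.map_id J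

theorem map_ell (J : Ideal (CR ℓ f)) : J.map (hg.tw ^ ℓ) = J := by
  have hone : (hg.tw ^ ℓ) = 1 := tw_pow_ℓ _
  rw [hone]
  exact Ideal.map_id J

theorem map_pow_ne_bot (i : ℕ) {J : Ideal (CR ℓ f)} (hJ : J ≠ ⊥) : J.map (hg.tw ^ i) ≠ ⊥ := by
  obtain ⟨x, hx, hx0⟩ := Submodule.exists_mem_ne_zero_of_ne_bot hJ
  intro h
  have h1 : (hg.tw ^ i) x ∈ J.map (hg.tw ^ i) := Ideal.mem_map_of_mem _ hx
  rw [h, Ideal.mem_bot] at h1
  exact hx0 (tw_pow_inj hg i (by rw [h1, map_zero]))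

theorem map_stable_pow {M : Ideal (CR ℓ f)} (hM : M.map hg.tw = M) (i : ℕ) :
    M.map (hg.tw ^ i) = M := by
  induction i with
  | zero => exact map_zero' hg M
  | succ i ih => rw [map_succ' hg, hM, ih]

theorem f_ne_zero : f ≠ 0 := hg.monic.ne_zero

theorem exists_root_of_splits (hs : f.Splits) : ∃ β, f.eval β = 0 := by
  have h1 : f.degree ≠ 0 := by
    intro h
    have h2 : f.natDegree = 0 := natDegree_eq_of_degree_eq_some h
    have := hg.cop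
    rw [h2, Nat.coprime_zero_right] at this
    exact hg.one_lt.ne' this
  obtain ⟨β, hβ⟩ := hs.exists_eval_eq_zero h1
  exact ⟨β, hβ⟩

theorem ell_ne_zero : (ℓ : L) ≠ 0 := by
  have : NeZero ℓ := ⟨hℓ0 hg⟩
  have := hg.root.neZero'
  exact this.out

end ring

/-! ### Ideals of the ramified points -/

section PP

variable {ℓ : ℕ} {L : Type} [Field L]

/-- The ideal of the point `(β, 0)`. -/
noncomputable def PP (ℓ : ℕ) (f : L[X]) (β : L) : Ideal (CR ℓ f) :=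
  Ideal.span {xp ℓ f (X - C β), yy ℓ f}

variable {f : L[X]} {ζ : L}

theorem mem_PP (hℓ : ℓ ≠ 0) {β : L} (hβ : f.eval β = 0) (x : CR ℓ f) :
    x ∈ PP ℓ f β ↔ ev ℓ f β x = 0 := by
  rw [ev_eq hℓ hβ, PP, ← evR_ker hℓ hβ, RingHom.mem_ker]

theorem PP_isPrime (hℓ : ℓ ≠ 0) {β : L} (hβ : f.eval β = 0) : (PP ℓ f β).IsPrime := by
  rw [PP, ← evR_ker hℓ hβ]
  exact RingHom.ker_isPrime _

variable (hg : Good ℓ ζ f)

include hg

theorem yy_ne_zero : yy ℓ f ≠ 0 := by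
  intro h
  have h1 := yy_pow ℓ f
  rw [h, zero_pow (hℓ0 hg)] at h1
  have h2 : xp ℓ f f = xp ℓ f 0 := by rw [xp_zero]; exact h1.symm
  exact f_ne_zero hg (xp_inj (hℓ0 hg) h2)

theorem PP_ne_bot (β : L) : PP ℓ f β ≠ ⊥ := by
  intro h
  have h1 : yy ℓ f ∈ PP ℓ f β := Ideal.subset_span (by simp)
  rw [h, Ideal.mem_bot] at h1
  exact yy_ne_zero hg h1

theorem PP_map (i : ℕ) (β : L) : (PP ℓ f β).map (hg.tw ^ i) = PP ℓ f β := by
  have hle : ∀ i : ℕ, (PP ℓ f β).map (hg.tw ^ i) ≤ PP ℓ f β := by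
    intro i
    rw [PP, Ideal.map_span, Ideal.span_le]
    rintro _ ⟨x, hx, rfl⟩
    rcases hx with rfl | rfl
    · rw [tw_pow_xp hg]
      exact Ideal.subset_span (by simp)
    · rw [tw_pow_yy hg]
      exact Ideal.mul_mem_left _ _ (Ideal.subset_span (by simp))
  apply le_antisymm (hle i)
  have h1 : ∀ j : ℕ, (PP ℓ f β).map (hg.tw ^ (i + j)) ≤ (PP ℓ f β).map (hg.tw ^ i) := by
    intro j
    have h2 : hg.tw ^ (i + j) = (hg.tw ^ i).comp (hg.tw ^ j) := by rw [pow_add]; rfl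
    rw [h2, ← Ideal.map_map]
    exact Ideal.map_mono (hle j)
  have h2 := h1 (i * (ℓ - 1))
  have e2 : i + i * (ℓ - 1) = ℓ * i := by
    have := hℓ0 hg
    obtain ⟨l, rfl⟩ : ∃ l, ℓ = l + 1 := ⟨ℓ - 1, by omega⟩
    simp only [Nat.add_sub_cancel]
    ring
  have hone : (hg.tw ^ ℓ) = 1 := tw_pow_ℓ _
  rw [e2, pow_mul, hone, one_pow] at h2
  have h3 : (PP ℓ f β).map (1 : CR ℓ f →+* CR ℓ f) = PP ℓ f β := Ideal.map_id _
  rwa [h3] at h2

/-- A prime containing `yy` and `xp p` with `p` irreducible contains `xp f`; so `p ∣ f`. -/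
theorem dvd_f_of_mem {P : Ideal (CR ℓ f)} (hP : P ≠ ⊤) {p : L[X]} (hp : Irreducible p)
    (h1 : xp ℓ f p ∈ P) (h2 : yy ℓ f ∈ P) : p ∣ f := by
  by_contra h
  have hco : IsCoprime p f := hp.coprime_iff_not_dvd.2 h
  obtain ⟨u, v, huv⟩ := hco
  apply hP
  rw [Ideal.eq_top_iff_one]
  have h3 : xp ℓ f f ∈ P := by
    rw [← yy_pow]
    exact Ideal.pow_mem_of_mem _ h2 _ (Nat.pos_of_ne_zero (hℓ0 hg))
  have h4 : (1 : CR ℓ f) = xp ℓ f u * xp ℓ f p + xp ℓ f v * xp ℓ f f := by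
    rw [← xp_mul, ← xp_mul, ← xp_add, huv, xp_one]
  rw [h4]
  exact P.add_mem (P.mul_mem_left _ h1) (P.mul_mem_left _ h3)

theorem PP_pow (hM : StMax) {β : L} (hβ : f.eval β = 0) :
    PP ℓ f β ^ ℓ = Ideal.span {xp ℓ f (X - C β)} := by
  have hPr := PP_isPrime (hℓ0 hg) hβ
  obtain ⟨p, hp, hpm, h⟩ := hM ℓ L ζ f hg (PP ℓ f β) hPr (PP_ne_bot hg β)
  have hy : yy ℓ f ∈ PP ℓ f β := Ideal.subset_span (by simp)
  have hxmem : xp ℓ f p ∈ PP ℓ f β := by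
    rcases h with ⟨_, d, c, _, _, h, _⟩ | ⟨_, h, _⟩ <;> rw [h] <;>
      exact Ideal.subset_span (by simp)
  have hpf := dvd_f_of_mem hg hPr.ne_top hp hxmem hy
  rcases h with ⟨h, _⟩ | ⟨_, _, h⟩
  · exact absurd hpf h
  · rw [h]
    rw [mem_PP (hℓ0 hg) hβ, ev_xp (hℓ0 hg) hβ] at hxmem
    have h1 : (X - C β) ∣ p := dvd_iff_isRoot.2 hxmem
    have h2 : Associated (X - C β) p :=
      (irreducible_X_sub_C β).associated_of_dvd hp h1
    rw [eq_of_monic_of_associated (monic_X_sub_C β) hpm h2]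

variable [hD : IsDedekindDomain (CR ℓ f)]

theorem PP_prime {β : L} (hβ : f.eval β = 0) : Prime (PP ℓ f β) :=
  Ideal.prime_of_isPrime (PP_ne_bot hg β) (PP_isPrime (hℓ0 hg) hβ)

end PP

/-! ### The valuation -/

section vv

variable {ℓ : ℕ} {L : Type} [Field L] {f : L[X]} {ζ : L}

/-- The valuation at the point `(β, 0)`. -/
noncomputable def vv (ℓ : ℕ) (f : L[X]) (β : L) (A : Ideal (CR ℓ f)) : ℕ :=
  multiplicity (PP ℓ f β) A

variable (hg : Good ℓ ζ f) [hD : IsDedekindDomain (CR ℓ f)]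

include hg

theorem span_ne {x : CR ℓ f} (hx : x ≠ 0) : Ideal.span {x} ≠ ⊥ := by
  intro h
  exact hx (Ideal.span_singleton_eq_bot.1 h)

include hD

theorem vv_fin {β : L} (hβ : f.eval β = 0) {A : Ideal (CR ℓ f)} (hA : A ≠ ⊥) :
    FiniteMultiplicity (PP ℓ f β) A :=
  FiniteMultiplicity.of_not_isUnit (PP_prime hg hβ).not_unit hA

theorem vv_mul {β : L} (hβ : f.eval β = 0) {A B : Ideal (CR ℓ f)} (hA : A ≠ ⊥) (hB : B ≠ ⊥) :
    vv ℓ f β (A * B) = vv ℓ f β A + vv ℓ f β B :=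
  multiplicity_mul (PP_prime hg hβ) (vv_fin hg hβ (mul_ne_zero hA hB))

theorem vv_pow {β : L} (hβ : f.eval β = 0) {A : Ideal (CR ℓ f)} (hA : A ≠ ⊥) (n : ℕ) :
    vv ℓ f β (A ^ n) = n * vv ℓ f β A :=
  (vv_fin hg hβ hA).multiplicity_pow (PP_prime hg hβ)

theorem vv_one {β : L} (hβ : f.eval β = 0) : vv ℓ f β 1 = 0 :=
  multiplicity_of_one_right (PP_prime hg hβ).not_unit

theorem vv_eq_zero {β : L} {A : Ideal (CR ℓ f)} : vv ℓ f β A = 0 ↔ ¬ A ≤ PP ℓ f β := by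
  rw [vv, multiplicity_eq_zero, Ideal.dvd_iff_le]

theorem vv_span_zero {β : L} (hβ : f.eval β = 0) (x : CR ℓ f) :
    vv ℓ f β (Ideal.span {x}) = 0 ↔ ev ℓ f β x ≠ 0 := by
  rw [vv_eq_zero hg, Ideal.span_singleton_le_iff_mem, mem_PP (hℓ0 hg) hβ]

theorem vv_coprime {β : L} (hβ : f.eval β = 0) {J : Ideal (CR ℓ f)}
    (hJ : J ⊔ Ideal.span {yy ℓ f} = ⊤) : vv ℓ f β J = 0 := by
  rw [vv_eq_zero hg]
  intro h
  apply (PP_isPrime (hℓ0 hg) hβ).ne_top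
  rw [eq_top_iff, ← hJ]
  apply sup_le h
  rw [Ideal.span_singleton_le_iff_mem]
  exact Ideal.subset_span (by simp)

theorem vv_self {β : L} (hβ : f.eval β = 0) : vv ℓ f β (PP ℓ f β) = 1 := multiplicity_self

theorem vv_xp_pow (hM : StMax) {β : L} (hβ : f.eval β = 0) (s : ℕ) :
    vv ℓ f β (Ideal.span {xp ℓ f ((X - C β) ^ s)}) = ℓ * s := by
  have h1 : Ideal.span {xp ℓ f ((X - C β) ^ s)} = (PP ℓ f β) ^ (ℓ * s) := by
    rw [pow_mul, PP_pow hg hM hβ, Ideal.span_singleton_pow, xp_pow]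
  rw [h1, vv_pow hg hβ (PP_ne_bot hg β), vv_self hg hβ, mul_one]

theorem xp_ne_zero {p : L[X]} (hp : p ≠ 0) : xp ℓ f p ≠ 0 := by
  intro h
  exact hp (xp_inj (f := f) (hℓ0 hg) (by rw [h, xp_zero]))

theorem vv_xp (hM : StMax) {β : L} (hβ : f.eval β = 0) {p : L[X]} (hp : p ≠ 0) :
    ℓ ∣ vv ℓ f β (Ideal.span {xp ℓ f p}) := by
  obtain ⟨q, hq, hqd⟩ := exists_eq_pow_rootMultiplicity_mul_and_not_dvd p hp β
  have hq0 : q ≠ 0 := by
    rintro rfl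
    exact hqd (dvd_zero _)
  have hX : (X - C β : L[X]) ^ (p.rootMultiplicity β) ≠ 0 := pow_ne_zero _ (X_sub_C_ne_zero β)
  have h1 : Ideal.span {xp ℓ f p} =
      Ideal.span {xp ℓ f ((X - C β) ^ (p.rootMultiplicity β))} * Ideal.span {xp ℓ f q} := by
    rw [Ideal.span_singleton_mul_span_singleton, ← xp_mul, ← hq]
  have h2 : vv ℓ f β (Ideal.span {xp ℓ f q}) = 0 := by
    rw [vv_span_zero hg hβ, ev_xp (hℓ0 hg) hβ]
    intro h
    exact hqd (dvd_iff_isRoot.2 h)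
  rw [h1, vv_mul hg hβ (span_ne hg (xp_ne_zero hg hX)) (span_ne hg (xp_ne_zero hg hq0)),
    h2, vv_xp_pow hg hM hβ, add_zero]
  exact dvd_mul_right _ _

theorem vv_yy (hM : StMax) {β : L} (hβ : f.eval β = 0) : vv ℓ f β (Ideal.span {yy ℓ f}) = 1 := by
  obtain ⟨q, hq⟩ : (X - C β) ∣ f := dvd_iff_isRoot.2 hβ
  have hqβ : q.eval β ≠ 0 := by
    intro h
    have h1 : (derivative f).eval β = 0 := by
      rw [hq, derivative_mul, eval_add, eval_mul, eval_mul, h, eval_sub, eval_X, eval_C, sub_self]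
      simp
    obtain ⟨u, v, huv⟩ := hg.sep
    have h2 := congrArg (eval β) huv
    rw [eval_add, eval_mul, eval_mul, hβ, h1, eval_one] at h2
    simp at h2
  have hq0 : q ≠ 0 := by
    rintro rfl
    simp at hqβ
  have h1 : Ideal.span {yy ℓ f} ^ ℓ =
      Ideal.span {xp ℓ f ((X - C β) ^ 1)} * Ideal.span {xp ℓ f q} := by
    rw [Ideal.span_singleton_pow, Ideal.span_singleton_mul_span_singleton, ← xp_mul, pow_one, ← hq,
      yy_pow]
  have h2 : vv ℓ f β (Ideal.span {xp ℓ f q}) = 0 := by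
    rw [vv_span_zero hg hβ, ev_xp (hℓ0 hg) hβ]
    exact hqβ
  have h3 := congrArg (vv ℓ f β) h1
  rw [vv_pow hg hβ (span_ne hg (yy_ne_zero hg)),
    vv_mul hg hβ (span_ne hg (xp_ne_zero hg (pow_ne_zero _ (X_sub_C_ne_zero β))))
      (span_ne hg (xp_ne_zero hg hq0)), h2, vv_xp_pow hg hM hβ, add_zero, mul_one] at h3
  exact Nat.eq_of_mul_eq_mul_left (Nat.pos_of_ne_zero (hℓ0 hg)) (by rw [h3, mul_one])

/-- The local form of a function at a ramified point. -/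
theorem loc (hM : StMax) {β : L} (hβ : f.eval β = 0) {g : CR ℓ f} (hg0 : g ≠ 0) {k s : ℕ}
    (h : vv ℓ f β (Ideal.span {g}) + k = ℓ * s) :
    ∃ u, g * yy ℓ f ^ k = xp ℓ f ((X - C β) ^ s) * u ∧ ev ℓ f β u ≠ 0 := by
  have hyk : yy ℓ f ^ k ≠ 0 := pow_ne_zero _ (yy_ne_zero hg)
  have hne : Ideal.span {g * yy ℓ f ^ k} ≠ ⊥ := span_ne hg (mul_ne_zero hg0 hyk)
  have h1 : vv ℓ f β (Ideal.span {g * yy ℓ f ^ k}) = ℓ * s := by
    rw [← Ideal.span_singleton_mul_span_singleton, vv_mul hg hβ (span_ne hg hg0) (span_ne hg hyk),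
      ← Ideal.span_singleton_pow, vv_pow hg hβ (span_ne hg (yy_ne_zero hg)), vv_yy hg hM hβ,
      mul_one, h]
  have h2 : (PP ℓ f β) ^ (ℓ * s) ∣ Ideal.span {g * yy ℓ f ^ k} := by
    rw [← h1]
    exact pow_multiplicity_dvd _ _
  have e1 : (PP ℓ f β) ^ (ℓ * s) = Ideal.span {xp ℓ f ((X - C β) ^ s)} := by
    rw [pow_mul, PP_pow hg hM hβ, Ideal.span_singleton_pow, xp_pow]
  rw [e1, Ideal.dvd_span_singleton, Ideal.mem_span_singleton] at h2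
  obtain ⟨u, hu⟩ := h2
  refine ⟨u, hu, ?_⟩
  have hu0 : u ≠ 0 := by
    rintro rfl
    rw [mul_zero] at hu
    exact mul_ne_zero hg0 hyk hu
  rw [← vv_span_zero hg hβ]
  rw [hu, ← Ideal.span_singleton_mul_span_singleton,
    vv_mul hg hβ (span_ne hg (xp_ne_zero hg (pow_ne_zero _ (X_sub_C_ne_zero β))))
      (span_ne hg hu0), vv_xp_pow hg hM hβ] at h1
  omega

/-- Cancellation of the part at the ramified points. -/
theorem T2 {u v : CR ℓ f} (hu : u ≠ 0) (hv : v ≠ 0) {J J2 : Ideal (CR ℓ f)}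
    (h : Ideal.span {u} * J = Ideal.span {v} * J2) (hJ : J ⊔ Ideal.span {yy ℓ f} = ⊤)
    (hJ2 : J2 ⊔ Ideal.span {yy ℓ f} = ⊤) (hr : ∃ β, f.eval β = 0) :
    ∃ a b, Cop ℓ f a ∧ Cop ℓ f b ∧ a ≠ 0 ∧ b ≠ 0 ∧ a * v = b * u := by
  have h1 : (1 : CR ℓ f) ∈ J ⊔ Ideal.span {yy ℓ f} := by rw [hJ]; trivial
  obtain ⟨b, hb, w, hw, hbw⟩ := Submodule.mem_sup.1 h1
  rw [Ideal.mem_span_singleton] at hw
  obtain ⟨w', rfl⟩ := hw
  have hbcop : Cop ℓ f b := by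
    intro β hβ
    have h2 : b = 1 - yy ℓ f * w' := by rw [← hbw]; ring
    rw [h2, ev_sub (hℓ0 hg) hβ, ev_one (hℓ0 hg) hβ, ev_mul (hℓ0 hg) hβ, ev_yy (hℓ0 hg) hβ]
    simp
  have hcop0 : ∀ x : CR ℓ f, Cop ℓ f x → x ≠ 0 := by
    rintro x hx rfl
    obtain ⟨β, hβ⟩ := hr
    apply hx β hβ
    rw [ev_eq (hℓ0 hg) hβ, map_zero]
  have hb0 := hcop0 b hbcop
  have h3 : b * u ∈ Ideal.span {v} * J2 := by
    have e0 : b * u = u * b := mul_comm _ _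
    rw [← h, e0]
    exact Ideal.mul_mem_mul (Ideal.mem_span_singleton_self _) hb
  rw [Ideal.mem_span_singleton_mul] at h3
  obtain ⟨a, ha, hav⟩ := h3
  have ha0 : a ≠ 0 := by
    rintro rfl
    rw [mul_zero] at hav
    exact mul_ne_zero hb0 hu hav.symm
  refine ⟨a, b, ?_, hbcop, ha0, hb0, by rw [← hav]; ring⟩
  intro β hβ
  rw [← vv_span_zero hg hβ]
  have hJ0 : J ≠ ⊥ := by
    rintro rfl
    have := vv_coprime hg hβ hJ
    rw [vv_eq_zero hg] at this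
    exact this bot_le
  have hJ20 : J2 ≠ ⊥ := by
    rintro rfl
    have := vv_coprime hg hβ hJ2
    rw [vv_eq_zero hg] at this
    exact this bot_le
  have h4 := congrArg (vv ℓ f β) h
  rw [vv_mul hg hβ (span_ne hg hu) hJ0, vv_mul hg hβ (span_ne hg hv) hJ20,
    vv_coprime hg hβ hJ, vv_coprime hg hβ hJ2] at h4
  have h5 : vv ℓ f β (Ideal.span {v * a}) = vv ℓ f β (Ideal.span {b * u}) := by rw [hav]
  rw [← Ideal.span_singleton_mul_span_singleton, ← Ideal.span_singleton_mul_span_singleton,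
    vv_mul hg hβ (span_ne hg hv) (span_ne hg ha0), vv_mul hg hβ (span_ne hg hb0) (span_ne hg hu),
    (vv_span_zero hg hβ b).2 (hbcop β hβ)] at h5
  omega

end vv

end Pool.Agent.Y317.SQ.D
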