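import Pool.Agent.Y154.SE.Loc2

/-!
The local condition, abstract form.
-/

open Polynomial IsLocalRing WithZero
open scoped NNReal

set_option autoImplicit false

namespace Pool.Agent.Y317.SQ.L

open Pool.Agent.Y154.SE

variable {L : Type*} [NontriviallyNormedField L] [IsUltrametricDist L] [CompleteSpace L]
  {O : ValuationSubring L}

/-- Comparison of a valuation with the spectral norm. -/
theorem w_le {M : Type*} [Field M] [Algebra L M] [Algebra.IsAlgebraic L M]
    (w : Valuation M (WithZero (Multiplicative ℤ)))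
    (hle : ∀ y : L, ‖y‖ ≤ 1 → w (algebraMap L M y) ≤ 1) (σ : M →ₐ[L] AlgebraicClosure L) (z : M)
    (h : sv (σ z) ≤ 1) : w z ≤ 1 := by
  have hi : IsIntegral L z := Algebra.IsIntegral.isIntegral z
  rw [sv_le_one_iff, minpoly.algHom_eq σ σ.injective] at h
  refine val_le_one w ((minpoly L z).map (algebraMap L M)) ((minpoly.monic hi).map _) (fun i => ?_) z
    ?_
  · rw [coeff_map]
    exact hle _ (h i)
  · rw [eval_map_algebraMap, minpoly.aeval]

theorem w_eq {M : Type*} [Field M] [Algebra L M] [Algebra.IsAlgebraic L M]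
    (w : Valuation M (WithZero (Multiplicative ℤ)))
    (hle : ∀ y : L, ‖y‖ ≤ 1 → w (algebraMap L M y) ≤ 1) (σ : M →ₐ[L] AlgebraicClosure L) (z : M)
    (r : L) (m : ℕ) (hz : z ≠ 0) (h : sv (σ z) ^ m = ‖r‖₊) : w z ^ m = w (algebraMap L M r) := by
  have hr : r ≠ 0 := by
    rintro rfl
    rw [nnnorm_zero] at h
    exact pow_ne_zero m ((Valuation.ne_zero_iff _).2 ((_root_.map_ne_zero σ).2 hz)) h
  have hr' : algebraMap L M r ≠ 0 := (_root_.map_ne_zero _).2 hr
  have hs : ∀ k : M, k = z ^ m / algebraMap L M r → sv (σ k) = 1 := by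
    rintro k rfl
    rw [map_div₀, map_pow, AlgHom.commutes, map_div₀, map_pow, sv_algebraMap, h]
    exact div_self (nnnorm_ne_zero_iff.2 hr)
  have h1 : w (z ^ m / algebraMap L M r) ≤ 1 := w_le w hle σ _ (hs _ rfl).le
  have h2 : w (z ^ m / algebraMap L M r)⁻¹ ≤ 1 := by
    refine w_le w hle σ _ ?_
    rw [map_inv₀, map_inv₀, hs _ rfl, inv_one]
  have h3 : w (z ^ m / algebraMap L M r) = 1 := by
    refine le_antisymm h1 ?_
    rw [map_inv₀] at h2
    have h4 : w (z ^ m / algebraMap L M r) ≠ 0 :=
      (Valuation.ne_zero_iff _).2 (div_ne_zero (pow_ne_zero _ hz) hr')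
    exact (inv_le_one₀ (zero_lt_iff.2 h4)).1 h2
  rw [map_div₀, map_pow] at h3
  exact (div_eq_one_iff_eq ((Valuation.ne_zero_iff _).2 hr')).1 h3

theorem exists_exp {x : WithZero (Multiplicative ℤ)} (h : x ≠ 0) : ∃ k : ℤ, x = exp k :=
  ⟨log x, (exp_log h).symm⟩

theorem exp_pow (k : ℤ) (n : ℕ) : (exp k : WithZero (Multiplicative ℤ)) ^ n = exp (n * k) := by
  rw [← exp_nsmul, nsmul_eq_mul]

theorem exp_inj {k l : ℤ} (h : (exp k : WithZero (Multiplicative ℤ)) = exp l) : k = l := by
  have := congrArg log h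
  rwa [log_exp, log_exp] at this

theorem power_of_dvd {ℓ : ℕ} {k : ℤ} (h : (ℓ : ℤ) ∣ k) :
    ∃ γ : WithZero (Multiplicative ℤ), exp k = γ ^ ℓ := by
  obtain ⟨j, rfl⟩ := h
  exact ⟨exp j, (exp_pow j ℓ).symm⟩

theorem loc_main (hO : ∀ y : L, y ∈ O ↔ ‖y‖ ≤ 1) (t : O) (ht : maximalIdeal O = Ideal.span {t})
    (hd : ∀ y : L, y ≠ 0 → ∃ k : ℤ, ‖y‖₊ = ‖(t : L)‖₊ ^ k)
    {M : Type*} [Field M] [Algebra L M] [Algebra.IsAlgebraic L M]
    (w : Valuation M (WithZero (Multiplicative ℤ)))
    (hle : ∀ y : L, ‖y‖ ≤ 1 → w (algebraMap L M y) ≤ 1)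
    (ℓ : ℕ) (hℓ : 0 < ℓ) (f : O[X]) (hf : f.Monic)
    (hirr : ∀ a : (ResidueField O)[X], Irreducible a → ℓ.Coprime a.natDegree)
    (hreg : ∀ a : O[X], a.Monic → Irreducible (a.map (residue O)) →
      f ∉ (Ideal.span {a} ⊔ (maximalIdeal O).map C) ^ 2)
    (hdeg : ℓ.Coprime f.natDegree) (p c : L[X]) (hp : p.Monic) (hpi : Irreducible p)
    (hpf : p ∣ f.map (algebraMap O L) - c ^ ℓ) (x : M)
    (hx : aeval x (f.map (algebraMap O L)) = 0) :
    ∃ γ : WithZero (Multiplicative ℤ), w (aeval x p) = γ ^ ℓ := by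
  classical
  have hinj : Function.Injective (algebraMap O L) := Subtype.val_injective
  by_cases hz : aeval x p = 0
  · exact ⟨0, by rw [hz, map_zero, zero_pow hℓ.ne']⟩
  set σ : M →ₐ[L] AlgebraicClosure L := IsAlgClosed.lift with hσ
  set θ := σ x with hθ
  have hix : IsIntegral L x := Algebra.IsIntegral.isIntegral x
  have hiθ : IsIntegral L θ := Algebra.IsIntegral.isIntegral θ
  have hσp : ∀ g : L[X], σ (aeval x g) = aeval θ g := fun g => by
    rw [hθ, aeval_algHom_apply]
  have hfθ : aeval θ (f.map (algebraMap O L)) = 0 := by rw [← hσp, hx, map_zero]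
  have hcoef : ∀ (g : O[X]) (i : ℕ), sv (((g.map (algebraMap O L)).map
      (algebraMap L (AlgebraicClosure L))).coeff i) ≤ 1 := by
    intro g i
    rw [coeff_map, coeff_map]
    exact sv_coe_le hO _
  have hsθ : sv θ ≤ 1 := by
    refine val_le_one sv ((f.map (algebraMap O L)).map (algebraMap L (AlgebraicClosure L)))
      ((hf.map _).map _) (hcoef f) θ ?_
    rw [eval_map_algebraMap, hfθ]
  -- integral lift of the minimal polynomial of an integral element
  have hlift : ∀ η : AlgebraicClosure L, sv η ≤ 1 → ∃ F : O[X], F.Monic ∧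
      F.map (algebraMap O L) = minpoly L η := by
    intro η hη
    have h1 := (sv_le_one_iff η).1 hη
    have h2 : minpoly L η ∈ lifts (algebraMap O L) := by
      rw [lifts_iff_coeff_lifts]
      intro n
      exact ⟨⟨_, (hO _).2 (h1 n)⟩, rfl⟩
    obtain ⟨F, h3, -, h4⟩ := lifts_and_natDegree_eq_and_monic h2
      (minpoly.monic (Algebra.IsIntegral.isIntegral η))
    exact ⟨F, h4, h3⟩
  obtain ⟨F, hFm, hF⟩ := hlift θ hsθ
  obtain ⟨g, hg⟩ : F ∣ f := by
    rw [← map_dvd_map (algebraMap O L) hinj hFm, hF]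
    exact minpoly.dvd L θ hfθ
  -- a root of `p`
  obtain ⟨ξ, hξ⟩ := IsAlgClosed.exists_aeval_eq_zero (AlgebraicClosure L) p hpi.degree_pos.ne'
  have hξp : minpoly L ξ = p := (minpoly.eq_of_irreducible_of_monic hpi hξ hp).symm
  set d := (minpoly L θ).natDegree with hd'
  set m := p.natDegree with hm'
  have hd0 : d ≠ 0 := (minpoly.natDegree_pos hiθ).ne'
  have hm0 : m ≠ 0 := hpi.natDegree_pos.ne'
  have hsym : sv (aeval θ p) ^ d = sv (aeval ξ (minpoly L θ)) ^ m := by
    have := sv_resultant_comm θ ξ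
    rwa [hξp] at this
  have hcξ : aeval ξ (f.map (algebraMap O L)) = aeval ξ c ^ ℓ := by
    obtain ⟨q, hq⟩ := hpf
    have := congrArg (aeval ξ) hq
    rw [map_sub, map_mul, hξ, zero_mul, map_pow, sub_eq_zero] at this
    exact this
  have hres : ∀ q : L[X], ‖resultant p q‖₊ = sv (aeval ξ q) ^ m := by
    intro q
    have := sv_resultant ξ q
    rwa [hξp] at this
  by_cases hξ1 : 1 < sv ξ
  · -- the non-integral case
    have hA1 : sv (aeval ξ (f.map (algebraMap O L))) = sv ξ ^ f.natDegree := by
      have := val_eval_large sv ((f.map (algebraMap O L)).map (algebraMap L (AlgebraicClosure L)))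
        ((hf.map _).map _) (hcoef f) ξ hξ1
      rwa [eval_map_algebraMap, natDegree_map, natDegree_map_eq_of_injective hinj] at this
    have hA2 : sv (aeval ξ (minpoly L θ)) = sv ξ ^ d := by
      have := val_eval_large sv ((F.map (algebraMap O L)).map (algebraMap L (AlgebraicClosure L)))
        ((hFm.map _).map _) (hcoef F) ξ hξ1
      rwa [eval_map_algebraMap, natDegree_map, hF] at this
    have h1 : ‖resultant p X‖₊ ^ f.natDegree = ‖resultant p c‖₊ ^ ℓ := by
      rw [hres, hres, aeval_X, ← pow_mul, mul_comm m, pow_mul, ← hA1, hcξ, map_pow, ← pow_mul,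
        ← pow_mul, mul_comm]
    have h2 : sv (aeval θ p) = ‖resultant p X‖₊ := by
      have h3 : sv (aeval θ p) ^ d = ‖resultant p X‖₊ ^ d := by
        rw [hsym, hA2, hres, aeval_X, ← pow_mul, ← pow_mul, mul_comm]
      exact (pow_left_inj₀ zero_le zero_le hd0).1 h3
    have h4 : w (aeval x p) ^ 1 = w (algebraMap L M (resultant p X)) := by
      refine w_eq w hle σ _ _ 1 hz ?_
      rw [pow_one, hσp, h2]
    rw [pow_one] at h4
    have hX0 : resultant p X ≠ 0 := by
      rw [← nnnorm_ne_zero_iff, hres, aeval_X]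
      exact pow_ne_zero _ (zero_lt_one.trans hξ1).ne'
    have hX0' : algebraMap L M (resultant p X) ≠ 0 := (_root_.map_ne_zero _).2 hX0
    have h5 : w (algebraMap L M (resultant p X)) ^ f.natDegree
        = w (algebraMap L M (resultant p c ^ ℓ)) := by
      refine w_eq w hle σ _ _ _ hX0' ?_
      rw [AlgHom.commutes, sv_algebraMap, h1, nnnorm_pow]
    have hc0 : resultant p c ≠ 0 := by
      intro e
      rw [e, nnnorm_zero, zero_pow hℓ.ne'] at h1
      exact pow_ne_zero _ (nnnorm_ne_zero_iff.2 hX0) h1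
    obtain ⟨k1, hk1⟩ := exists_exp ((Valuation.ne_zero_iff w).2 hX0')
    obtain ⟨k2, hk2⟩ := exists_exp ((Valuation.ne_zero_iff w).2 ((_root_.map_ne_zero (algebraMap L M)).2 hc0))
    rw [map_pow, map_pow, hk1, hk2, exp_pow, exp_pow] at h5
    have h6 := exp_inj h5
    rw [h4, hk1]
    refine power_of_dvd ?_
    have h7 : (ℓ : ℤ) ∣ (f.natDegree : ℤ) * k1 := ⟨k2, h6⟩
    exact (Int.isCoprime_iff_gcd_eq_one.2 (by simpa using hdeg)).dvd_of_dvd_mul_left h7
  · rw [not_lt] at hξ1
    -- the integral case
    obtain ⟨P, hPm, hP⟩ := hlift ξ hξ1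
    rw [hξp] at hP
    have hevP : ev θ P = aeval θ p := by rw [ev_apply, hP]
    have hle1 : sv (aeval θ p) ≤ 1 := by
      rw [← hevP]
      exact sv_ev_le hO hsθ P
    rcases hle1.eq_or_lt with h1 | h1
    · refine ⟨1, ?_⟩
      have h4 : w (aeval x p) ^ 1 = w (algebraMap L M 1) := by
        refine w_eq w hle σ _ _ 1 hz ?_
        rw [pow_one, hσp, h1, nnnorm_one]
      rw [pow_one, map_one, map_one] at h4
      rw [h4, one_pow]
    · obtain ⟨a, ham, hai, ha⟩ := exists_a hO θ hsθ F hFm (by rw [ev_apply, hF, minpoly.aeval])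
      obtain ⟨a', ham', hai', ha'⟩ := exists_a hO ξ hξ1 P hPm (by rw [ev_apply, hP, hξ])
      have haa : a'.map (residue O) = a.map (residue O) := by
        obtain ⟨n, hn⟩ := red_pow hO ξ P hPm (by rw [hP, hξp]) a' ham' hai' ha'
        have h2 : a.map (residue O) ∣ P.map (residue O) := (ha P).1 (by rw [hevP]; exact h1)
        rw [hn] at h2
        have h3 := hai.prime.dvd_of_dvd_pow h2
        exact eq_of_irr_dvd (ham.map _) (ham'.map _) hai hai' h3
      have hFa : a.map (residue O) ∣ F.map (residue O) := by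
        rw [← ha, ev_apply, hF, minpoly.aeval, map_zero]
        exact zero_lt_one
      have hFmem : F ∈ Ideal.span {a} ⊔ (maximalIdeal O).map C := mem_of_dvd a F hFa
      have hgξ : sv (ev ξ g) = 1 := by
        refine le_antisymm (sv_ev_le hO hξ1 g) ?_
        by_contra h2
        rw [not_le, ha', haa] at h2
        refine hreg a ham hai ?_
        rw [hg, sq]
        exact Ideal.mul_mem_mul hFmem (mem_of_dvd a g h2)
      have hFξ : sv (aeval ξ (minpoly L θ)) = sv (aeval ξ c) ^ ℓ := by
        rw [← map_pow, ← hcξ, hg, Polynomial.map_mul, map_mul, map_mul, hF]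
        rw [ev_apply] at hgξ
        rw [hgξ, mul_one]
      have hw1 : w (aeval x p) ^ d = w (algebraMap L M (resultant p c ^ ℓ)) := by
        refine w_eq w hle σ _ _ d hz ?_
        rw [hσp, hsym, hFξ, nnnorm_pow, hres, ← pow_mul, ← pow_mul, mul_comm]
      obtain ⟨e0, he0⟩ := red_pow hO θ F hFm hF a ham hai ha
      have hdf : d = e0 * (a.map (residue O)).natDegree := by
        rw [hd', ← hF, natDegree_map_eq_of_injective hinj, ← hFm.natDegree_map (residue O), he0,
          (ham.map (residue O)).natDegree_pow]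
      have he00 : e0 ≠ 0 := by
        rintro rfl
        rw [zero_mul] at hdf
        exact hd0 hdf
      have hcop : ℓ.Coprime (a.map (residue O)).natDegree := hirr _ hai
      have hwz : w (aeval x p) ≠ 0 := (Valuation.ne_zero_iff w).2 hz
      obtain ⟨W, hW⟩ := exists_exp hwz
      have hc0 : resultant p c ≠ 0 := by
        intro e
        rw [e, zero_pow hℓ.ne', map_zero, map_zero] at hw1
        exact pow_ne_zero _ hwz hw1
      obtain ⟨k2, hk2⟩ := exists_exp ((Valuation.ne_zero_iff w).2
        ((_root_.map_ne_zero (algebraMap L M)).2 hc0))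
      rw [map_pow, map_pow, hW, hk2, exp_pow, exp_pow] at hw1
      have hw2 := exp_inj hw1
      -- `e0` divides `k2`
      have hdvd : (e0 : ℤ) ∣ k2 := by
        by_cases h2 : e0 = 1
        · rw [h2]; simp
        have hFa2 : (F - a ^ e0) ∈ (maximalIdeal O).map C := by
          rw [Ideal.mem_map_C_iff]
          intro n
          rw [← residue_eq_zero_iff]
          have h3 : (F - a ^ e0).map (residue O) = 0 := by
            rw [Polynomial.map_sub, Polynomial.map_pow, he0, sub_self]
          have h4 := congrArg (fun q => q.coeff n) h3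
          simp only [coeff_map, coeff_zero] at h4
          exact h4
        rw [ht, Ideal.map_span, Set.image_singleton, Ideal.mem_span_singleton] at hFa2
        obtain ⟨h, hh⟩ := hFa2
        have hCt : C t ∈ Ideal.span {a} ⊔ (maximalIdeal O).map C := by
          refine Ideal.mem_sup_right (Ideal.mem_map_of_mem _ ?_)
          rw [ht]
          exact Ideal.mem_span_singleton_self t
        have hamem : a ∈ Ideal.span {a} ⊔ (maximalIdeal O).map C :=
          Ideal.mem_sup_left (Ideal.mem_span_singleton_self a)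
        have hhθ : sv (ev θ h) = 1 := by
          refine le_antisymm (sv_ev_le hO hsθ h) ?_
          by_contra h3
          rw [not_le, ha] at h3
          refine hreg a ham hai ?_
          have h4 : F = a ^ 2 * a ^ (e0 - 2) + C t * h := by
            rw [← pow_add, Nat.add_sub_cancel' (by omega), ← hh]
            ring
          have h5 : F ∈ (Ideal.span {a} ⊔ (maximalIdeal O).map C) ^ 2 := by
            rw [h4]
            refine Ideal.add_mem _ (Ideal.mul_mem_right _ _ (Ideal.pow_mem_pow hamem 2)) ?_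
            rw [sq]
            exact Ideal.mul_mem_mul hCt (mem_of_dvd a h h3)
          rw [hg]
          exact Ideal.mul_mem_right _ _ h5
        have h6 : ev θ a ^ e0 = -(algebraMap L (AlgebraicClosure L) (t : L) * ev θ h) := by
          have h7 := congrArg (ev θ) hh
          have h8 : ev θ F = 0 := by rw [ev_apply, hF, minpoly.aeval]
          have h9 : ev θ (C t) = algebraMap L (AlgebraicClosure L) (t : L) := by
            rw [ev_apply, map_C, aeval_C]
            rfl
          rw [map_sub, map_pow, map_mul, h8, h9] at h7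
          linear_combination -h7
        have h7 : sv (ev θ a) ^ e0 = ‖(t : L)‖₊ := by
          rw [← map_pow, h6, Valuation.map_neg, map_mul, hhθ, mul_one, sv_algebraMap]
        have ht0 : (t : L) ≠ 0 := by
          intro e
          obtain ⟨k, hk⟩ := hd _ hc0
          have ht0' : t = 0 := Subtype.ext e
          obtain ⟨y, hy⟩ := NormedField.exists_norm_lt_one L
          have hy1 : (⟨y, (hO y).2 hy.2.le⟩ : O) ∈ maximalIdeal O := (mem_max_iff hO _).2 hy.2
          rw [ht, ht0', Ideal.mem_span_singleton, zero_dvd_iff] at hy1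
          have hy2 : y = 0 := congrArg Subtype.val hy1
          rw [hy2, norm_zero] at hy
          exact lt_irrefl _ hy.1
        have hza : aeval x (a.map (algebraMap O L)) ≠ 0 := by
          intro e
          have h8 : ev θ a = 0 := by rw [ev_apply, ← hσp, e, map_zero]
          rw [h8, map_zero, zero_pow he00] at h7
          exact ht0 (nnnorm_eq_zero.1 h7.symm)
        have h8 : w (aeval x (a.map (algebraMap O L))) ^ e0 = w (algebraMap L M (t : L)) := by
          refine w_eq w hle σ _ _ e0 hza ?_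
          rw [hσp, ← ev_apply, h7]
        obtain ⟨A, hA⟩ := exists_exp ((Valuation.ne_zero_iff w).2 hza)
        obtain ⟨k, hk⟩ := hd _ hc0
        have h9 : w (algebraMap L M (resultant p c)) = w (algebraMap L M ((t : L) ^ k)) := by
          have := w_eq w hle σ (algebraMap L M (resultant p c)) ((t : L) ^ k) 1
            ((_root_.map_ne_zero (algebraMap L M)).2 hc0)
            (by rw [pow_one, AlgHom.commutes, sv_algebraMap, hk, nnnorm_zpow])
          rwa [pow_one] at this
        rw [hk2, map_zpow₀, map_zpow₀, ← h8, hA, exp_pow, ← exp_zsmul] at h9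
        have h10 := exp_inj h9
        rw [h10, smul_eq_mul]
        exact ⟨k * A, by ring⟩
      obtain ⟨k3, hk3⟩ := hdvd
      rw [hW]
      refine power_of_dvd ?_
      have h11 : (ℓ : ℤ) ∣ ((a.map (residue O)).natDegree : ℤ) * W := by
        refine ⟨k3, ?_⟩
        have h12 : (e0 : ℤ) ≠ 0 := by exact_mod_cast he00
        rw [hdf, hk3] at hw2
        push_cast at hw2
        apply mul_left_cancel₀ h12
        linear_combination hw2
      exact (Int.isCoprime_iff_gcd_eq_one.2 (by simpa using hcop)).dvd_of_dvd_mul_left h11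

end Pool.Agent.Y317.SQ.L
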